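import Pool.Agent.Lib.MP_c7fa02_an.Basic

set_option autoImplicit false

namespace Pool.Agent.Lib.MP_c7fa02_an

open Polynomial Complex ComplexConjugate

/-- Truncated square norm of the coefficients. -/
noncomputable def S (N : ℕ) (g : ℂ[X]) : ℝ := ∑ j ∈ Finset.range (N + 1), ‖g.coeff j‖ ^ 2

lemma coeff_one_sub_mul_zero (a : ℂ) (g : ℂ[X]) :
    ((1 - C a * X) * g).coeff 0 = g.coeff 0 := by
  simp [mul_coeff_zero]

lemma coeff_one_sub_mul_succ (a : ℂ) (g : ℂ[X]) (j : ℕ) :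
    ((1 - C a * X) * g).coeff (j + 1) = g.coeff (j + 1) - a * g.coeff j := by
  rw [sub_mul, one_mul, coeff_sub, mul_assoc, coeff_C_mul, coeff_X_mul]

lemma coeff_X_sub_mul_zero (a : ℂ) (g : ℂ[X]) :
    ((X - C a) * g).coeff 0 = - (a * g.coeff 0) := by
  simp [mul_coeff_zero]

lemma coeff_X_sub_mul_succ (a : ℂ) (g : ℂ[X]) (j : ℕ) :
    ((X - C a) * g).coeff (j + 1) = g.coeff j - a * g.coeff (j + 1) := by
  rw [sub_mul, coeff_sub, coeff_X_mul, coeff_C_mul]

lemma two_term_identity (ζ a b : ℂ) :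
    ‖a - ζ * b‖ ^ 2 - ‖b - conj ζ * a‖ ^ 2 = (‖ζ‖ ^ 2 - 1) * (‖b‖ ^ 2 - ‖a‖ ^ 2) := by
  simp only [← Complex.normSq_eq_norm_sq, Complex.normSq_apply, Complex.sub_re, Complex.sub_im,
    Complex.mul_re, Complex.mul_im, Complex.conj_re, Complex.conj_im]
  ring

lemma S_single_eq (ζ : ℂ) (g : ℂ[X]) (N : ℕ) :
    S N ((X - C ζ) * g) - S N ((1 - C (conj ζ) * X) * g) = (‖ζ‖ ^ 2 - 1) * ‖g.coeff N‖ ^ 2 := by
  induction N with
  | zero =>
    simp only [S, zero_add, Finset.range_one, Finset.sum_singleton]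
    rw [coeff_X_sub_mul_zero, coeff_one_sub_mul_zero, norm_neg, norm_mul]
    ring
  | succ N ih =>
    have e1 : S (N + 1) ((X - C ζ) * g)
        = S N ((X - C ζ) * g) + ‖((X - C ζ) * g).coeff (N + 1)‖ ^ 2 := by
      simp only [S]; rw [Finset.sum_range_succ]
    have e2 : S (N + 1) ((1 - C (conj ζ) * X) * g)
        = S N ((1 - C (conj ζ) * X) * g) + ‖((1 - C (conj ζ) * X) * g).coeff (N + 1)‖ ^ 2 := by
      simp only [S]; rw [Finset.sum_range_succ]
    rw [e1, e2, coeff_X_sub_mul_succ, coeff_one_sub_mul_succ]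
    have := two_term_identity ζ (g.coeff N) (g.coeff (N + 1))
    linarith

lemma S_single_le {ζ : ℂ} (hζ : 1 ≤ ‖ζ‖) (g : ℂ[X]) (N : ℕ) :
    S N ((1 - C (conj ζ) * X) * g) ≤ S N ((X - C ζ) * g) := by
  have h := S_single_eq ζ g N
  have : 0 ≤ (‖ζ‖ ^ 2 - 1) * ‖g.coeff N‖ ^ 2 := by
    apply mul_nonneg _ (by positivity)
    nlinarith
  linarith

lemma S_multiset_le (s : Multiset ℂ) (hs : ∀ ζ ∈ s, 1 ≤ ‖ζ‖) (u : ℂ[X]) (N : ℕ) :
    S N ((s.map fun ζ => (1 - C (conj ζ) * X)).prod * u) ≤ S N ((s.map fun ζ => (X - C ζ)).prod * u) := by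
  induction s using Multiset.induction_on generalizing u with
  | empty => simp
  | cons ζ s ih =>
    rw [Multiset.map_cons, Multiset.map_cons, Multiset.prod_cons, Multiset.prod_cons]
    have h1 := ih (fun x hx => hs x (Multiset.mem_cons_of_mem hx)) ((1 - C (conj ζ) * X) * u)
    have h2 := S_single_le (hs ζ (Multiset.mem_cons_self ζ s))
      ((s.map fun ζ => (X - C ζ)).prod * u) N
    calc S N ((1 - C (conj ζ) * X) * (s.map fun ζ => (1 - C (conj ζ) * X)).prod * u)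
        = S N ((s.map fun ζ => (1 - C (conj ζ) * X)).prod * ((1 - C (conj ζ) * X) * u)) := by
          congr 1; ring
      _ ≤ S N ((s.map fun ζ => (X - C ζ)).prod * ((1 - C (conj ζ) * X) * u)) := h1
      _ = S N ((1 - C (conj ζ) * X) * ((s.map fun ζ => (X - C ζ)).prod * u)) := by
          congr 1; ring
      _ ≤ _ := h2
      _ = _ := by congr 1; ring

/-- The conjugate reciprocal polynomial `P*(z) = z^n conj (P (1/conj z))`, `n = natDegree P`. -/
noncomputable def star' (P : ℂ[X]) : ℂ[X] := (P.reverse).map (starRingEnd ℂ)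

lemma coeff_star' (P : ℂ[X]) {k : ℕ} (hk : k ≤ P.natDegree) :
    (star' P).coeff k = conj (P.coeff (P.natDegree - k)) := by
  rw [star', coeff_map, coeff_reverse, revAt_le hk]

lemma reverse_multiset_prod (s : Multiset ℂ[X]) :
    (s.prod).reverse = (s.map reverse).prod := by
  induction s using Multiset.induction_on with
  | empty => simpa using reverse_C (1 : ℂ)
  | cons a s ih => rw [Multiset.prod_cons, reverse_mul_of_domain, ih, Multiset.map_cons,
      Multiset.prod_cons]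

lemma reverse_X_sub_C (a : ℂ) : (X - C a : ℂ[X]).reverse = 1 - C a * X := by
  ext k
  rw [coeff_reverse, natDegree_X_sub_C]
  rcases k with _ | _ | k
  · simp [revAt_le]
  · rw [revAt_le (by norm_num)]
    simp [coeff_one]
  · have : revAt 1 (k + 1 + 1) = k + 1 + 1 := by
      rw [revAt_eq_self_of_lt (by omega)]
    rw [this]
    simp [coeff_X, coeff_one]

lemma star'_eq_prod (P : ℂ[X]) :
    star' P = C (conj P.leadingCoeff) * (P.roots.map fun ζ => (1 - C (conj ζ) * X)).prod := by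
  conv_lhs => rw [(IsAlgClosed.splits P).eq_prod_roots]
  rw [star', reverse_mul_of_domain, reverse_C, reverse_multiset_prod, Polynomial.map_mul,
    map_C, Multiset.map_map, Polynomial.map_multiset_prod, Multiset.map_map]
  congr 2
  refine Multiset.map_congr rfl fun ζ _ => ?_
  simp [reverse_X_sub_C]

lemma S_C_mul (N : ℕ) (a : ℂ) (g : ℂ[X]) : S N (C a * g) = ‖a‖ ^ 2 * S N g := by
  simp only [S, coeff_C_mul, norm_mul, mul_pow, Finset.mul_sum]

/-- Truncated Schur–Cohn inequality. -/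
theorem schur_cohn {P : ℂ[X]} (hP : ∀ z : ℂ, ‖z‖ < 1 → P.eval z ≠ 0) (u : ℂ[X]) (N : ℕ) :
    S N (star' P * u) ≤ S N (P * u) := by
  have hroots : ∀ ζ ∈ P.roots, 1 ≤ ‖ζ‖ := by
    intro ζ hζ
    by_contra hlt
    exact hP ζ (not_le.mp hlt) (mem_roots'.mp hζ).2
  have h := S_multiset_le P.roots hroots u N
  rw [star'_eq_prod, mul_assoc, S_C_mul]
  conv_rhs => rw [(IsAlgClosed.splits P).eq_prod_roots, mul_assoc, S_C_mul]
  rw [RCLike.norm_conj]
  exact mul_le_mul_of_nonneg_left h (by positivity)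

/-- Main coefficient inequality: `Q` zero free in the open disc, with `‖q_j‖ = ‖q_{n-j}‖` for
`0 < j ≤ l`. Then `‖q_l conj q_0 - conj q_{n-l} q_n‖ ≤ ‖q_0‖² - ‖q_n‖²`. -/
theorem coeff_ineq {Q : ℂ[X]} (hQ : ∀ z : ℂ, ‖z‖ < 1 → Q.eval z ≠ 0) {l : ℕ} (hl : 0 < l)
    (hln : l ≤ Q.natDegree)
    (hsym : ∀ j, 0 < j → j ≤ l → ‖Q.coeff j‖ = ‖Q.coeff (Q.natDegree - j)‖) :
    ‖Q.coeff l * conj (Q.coeff 0) - conj (Q.coeff (Q.natDegree - l)) * Q.coeff Q.natDegree‖
      ≤ ‖Q.coeff 0‖ ^ 2 - ‖Q.coeff Q.natDegree‖ ^ 2 := by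
  set n := Q.natDegree with hn
  -- for all λ of norm one
  have key : ∀ a : ℂ, ‖a‖ = 1 →
      ‖conj (Q.coeff (n - l)) + a * conj (Q.coeff n)‖ ^ 2 + ‖Q.coeff n‖ ^ 2
        ≤ ‖Q.coeff l + a * Q.coeff 0‖ ^ 2 + ‖Q.coeff 0‖ ^ 2 := by
    intro a _
    have h := schur_cohn hQ (1 + C a * X ^ l) l
    obtain ⟨l', rfl⟩ : ∃ l', l = l' + 1 := ⟨l - 1, by omega⟩
    have expand : ∀ g : ℂ[X], S (l' + 1) (g * (1 + C a * X ^ (l' + 1)))
        = ‖g.coeff 0‖ ^ 2 + (∑ j ∈ Finset.range l', ‖g.coeff (j + 1)‖ ^ 2)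
          + ‖g.coeff (l' + 1) + a * g.coeff 0‖ ^ 2 := by
      intro g
      have hc : ∀ j, j < l' + 1 → (g * (1 + C a * X ^ (l' + 1))).coeff j = g.coeff j := by
        intro j hj
        rw [mul_add, mul_one, coeff_add, ← mul_assoc, coeff_mul_X_pow', if_neg (by omega), add_zero]
      have hc2 : (g * (1 + C a * X ^ (l' + 1))).coeff (l' + 1) = g.coeff (l' + 1) + a * g.coeff 0 := by
        rw [mul_add, mul_one, coeff_add, ← mul_assoc, coeff_mul_X_pow', if_pos le_rfl, Nat.sub_self,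
          mul_comm g, coeff_C_mul]
      rw [S, Finset.sum_range_succ, hc2, Finset.sum_range_succ']
      rw [hc 0 (by omega)]
      have : ∑ k ∈ Finset.range l', ‖(g * (1 + C a * X ^ (l' + 1))).coeff (k + 1)‖ ^ 2
          = ∑ j ∈ Finset.range l', ‖g.coeff (j + 1)‖ ^ 2 := by
        refine Finset.sum_congr rfl fun k hk => ?_
        rw [hc (k + 1) (by have := Finset.mem_range.mp hk; omega)]
      rw [this]
      ring
    rw [expand, expand] at h
    rw [coeff_star' Q (Nat.zero_le _), coeff_star' Q hln, Nat.sub_zero, ← hn] at h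
    have hs : ∑ j ∈ Finset.range l', ‖(star' Q).coeff (j + 1)‖ ^ 2
        = ∑ j ∈ Finset.range l', ‖Q.coeff (j + 1)‖ ^ 2 := by
      refine Finset.sum_congr rfl fun k hk => ?_
      have hk' := Finset.mem_range.mp hk
      rw [coeff_star' Q (by omega), RCLike.norm_conj, ← hn, ← hsym (k + 1) (by omega) (by omega)]
    rw [hs, RCLike.norm_conj] at h
    linarith
  set Y : ℂ := Q.coeff l * conj (Q.coeff 0) - conj (Q.coeff (n - l)) * Q.coeff n with hY
  by_cases hY0 : Y = 0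
  · rw [hY0, norm_zero]
    have h1 := key 1 (by simp)
    have h2 := key (-1) (by simp)
    have e1 : ∀ x y : ℂ, ‖x + 1 * y‖ ^ 2 + ‖x + -1 * y‖ ^ 2 = 2 * ‖x‖ ^ 2 + 2 * ‖y‖ ^ 2 := by
      intro x y
      simp only [← Complex.normSq_eq_norm_sq, Complex.normSq_apply, Complex.add_re, Complex.add_im,
        Complex.mul_re, Complex.mul_im, Complex.one_re, Complex.one_im, Complex.neg_re,
        Complex.neg_im]
      ring
    have h3 := e1 (conj (Q.coeff (n - l))) (conj (Q.coeff n))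
    have h4 := e1 (Q.coeff l) (Q.coeff 0)
    rw [RCLike.norm_conj, RCLike.norm_conj, ← hsym l hl le_rfl] at h3
    linarith
  · have hYpos : 0 < ‖Y‖ := norm_pos_iff.mpr hY0
    -- choose a = - Y / ‖Y‖
    have ha : ‖-(Y / (‖Y‖ : ℂ))‖ = 1 := by
      rw [norm_neg, norm_div, Complex.norm_real, norm_norm, div_self hYpos.ne']
    have h := key _ ha
    have e : ∀ x y a : ℂ, ‖x + a * y‖ ^ 2 = ‖x‖ ^ 2 + ‖a‖ ^ 2 * ‖y‖ ^ 2
        + 2 * (conj a * (x * conj y)).re := by
      intro x y a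
      simp only [← Complex.normSq_eq_norm_sq, Complex.normSq_apply, Complex.add_re, Complex.add_im,
        Complex.mul_re, Complex.mul_im, Complex.conj_re, Complex.conj_im]
      ring
    rw [e, e, ha, RCLike.norm_conj, RCLike.norm_conj, ← hsym l hl le_rfl] at h
    have e2 : (conj (-(Y / (‖Y‖ : ℂ))) * (Q.coeff l * conj (Q.coeff 0))).re
        - (conj (-(Y / (‖Y‖ : ℂ))) * (conj (Q.coeff (n - l)) * conj (conj (Q.coeff n)))).re
        = - ‖Y‖ := by
      rw [← Complex.sub_re, ← mul_sub, Complex.conj_conj, ← hY]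
      have : conj (-(Y / (‖Y‖ : ℂ))) * Y = ((- ‖Y‖ : ℝ) : ℂ) := by
        rw [map_neg, map_div₀, Complex.conj_ofReal, neg_mul, div_mul_eq_mul_div, mul_comm (conj Y) Y,
          Complex.mul_conj, Complex.normSq_eq_norm_sq]
        have : ((‖Y‖ : ℝ) : ℂ) ≠ 0 := by exact_mod_cast hYpos.ne'
        push_cast
        field_simp
      rw [this, Complex.ofReal_re]
    linarith

end Pool.Agent.Lib.MP_c7fa02_an
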