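import Pool.Agent.Lib.MP_c7fa02_an.NonnegCase
import Pool.Agent.Lib.MP_c7fa02_an.SchurCohn

set_option autoImplicit false

namespace Pool.Agent.Lib.MP_c7fa02_an

open Polynomial Complex ComplexConjugate Metric

lemma conj_mul_self_of_norm_one {z : ℂ} (hz : ‖z‖ = 1) : conj z * z = 1 := by
  rw [mul_comm, Complex.mul_conj, Complex.normSq_eq_norm_sq, hz]; simp

lemma eval_star' (Q : ℂ[X]) {z : ℂ} (hz : ‖z‖ = 1) :
    (star' Q).eval z = z ^ Q.natDegree * conj (Q.eval z) := by
  have hz0 : z ≠ 0 := by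
    intro h; rw [h, norm_zero] at hz; norm_num at hz
  have hcz : conj z ≠ 0 := by
    intro h; exact hz0 (by simpa using h)
  have h1 : (star' Q).eval z = conj (Q.reverse.eval (conj z)) := by
    rw [star', eval_map]
    have := Polynomial.eval₂_at_apply (starRingEnd ℂ) (p := Q.reverse) (conj z)
    rw [Complex.conj_conj] at this
    exact this
  have h2 : Q.reverse.eval (conj z) * z ^ Q.natDegree = Q.eval z := by
    let _ : Invertible z := invertibleOfNonzero hz0
    have h3 : ⅟z = conj z := by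
      rw [invOf_eq_inv]
      exact inv_eq_of_mul_eq_one_left (conj_mul_self_of_norm_one hz)
    have h5 := Polynomial.eval₂_reverse_mul_pow (RingHom.id ℂ) z Q
    rw [h3] at h5
    exact h5
  rw [h1, ← h2, map_mul, map_pow]
  have h4 : z ^ Q.natDegree * conj z ^ Q.natDegree = 1 := by
    rw [← mul_pow, mul_comm, conj_mul_self_of_norm_one hz, one_pow]
  linear_combination (-(conj (Q.reverse.eval (conj z)))) * h4

lemma natDegree_star' {Q : ℂ[X]} (h0 : Q.coeff 0 ≠ 0) : (star' Q).natDegree = Q.natDegree := by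
  rw [star', natDegree_map_eq_of_injective (RingHom.injective _), reverse_natDegree]
  rw [natTrailingDegree_eq_zero.mpr (Or.inr h0), Nat.sub_zero]

lemma norm_one_of_star'_root {Q : ℂ[X]} (hQ : Q ≠ 0) (hroots : ∀ ζ ∈ Q.roots, ‖ζ‖ = 1) {z : ℂ}
    (hz : (star' Q).eval z = 0) : ‖z‖ = 1 := by
  rw [star'_eq_prod, eval_mul, eval_C, eval_multiset_prod, Multiset.map_map] at hz
  have hlc : conj Q.leadingCoeff ≠ 0 := by
    intro h
    exact hQ (by simpa using h)
  have h1 := (mul_eq_zero.mp hz).resolve_left hlc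
  rw [Multiset.prod_eq_zero_iff, Multiset.mem_map] at h1
  obtain ⟨ζ, hζ, h2⟩ := h1
  simp only [Function.comp_apply, eval_sub, eval_one, eval_mul, eval_C, eval_X] at h2
  have h3 : conj ζ * z = 1 := (sub_eq_zero.mp h2).symm
  have h4 := congrArg norm h3
  rw [norm_mul, RCLike.norm_conj, hroots ζ hζ, one_mul, norm_one] at h4
  exact h4

/-- `Q` with all zeros on the unit circle and `‖Q‖ ≤ M` there: the sum of squares of the moduli of
the coefficients is at most `M²/2`. -/
theorem l2_case {Q : ℂ[X]} (hn : 0 < Q.natDegree)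
    (hroots : ∀ ζ ∈ Q.roots, ‖ζ‖ = 1) {M : ℝ} (hM : ∀ z : ℂ, ‖z‖ = 1 → ‖Q.eval z‖ ≤ M) :
    ∑ k ∈ Finset.range (Q.natDegree + 1), ‖Q.coeff k‖ ^ 2 ≤ M ^ 2 / 2 := by
  set n := Q.natDegree with hndef
  have hQ0 : Q ≠ 0 := by
    intro h; rw [h, natDegree_zero] at hndef; omega
  have hc0 : Q.coeff 0 ≠ 0 := by
    intro h
    have : (0 : ℂ) ∈ Q.roots := by
      rw [mem_roots hQ0, IsRoot, ← coeff_zero_eq_eval_zero]; exact h
    have := hroots 0 this
    simp at this
  have hs0 : star' Q ≠ 0 := by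
    intro h
    have h1 := natDegree_star' hc0
    rw [h, natDegree_zero] at h1
    omega
  have hM0 : 0 ≤ M := (norm_nonneg _).trans (hM 1 (by simp))
  set P : ℂ[X] := Q * star' Q with hP
  have hPdeg : P.natDegree = 2 * n := by
    rw [hP, natDegree_mul hQ0 hs0, natDegree_star' hc0]; ring
  have hProots : ∀ ζ ∈ P.roots, ‖ζ‖ = 1 := by
    intro ζ hζ
    rw [hP, roots_mul (mul_ne_zero hQ0 hs0), Multiset.mem_add] at hζ
    rcases hζ with h | h
    · exact hroots ζ h
    · exact norm_one_of_star'_root hQ0 hroots ((mem_roots hs0).mp h)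
  have hPeval : ∀ z : ℂ, ‖z‖ = 1 → conj z ^ n * P.eval z = ((‖Q.eval z‖ ^ 2 : ℝ) : ℂ) := by
    intro z hz
    rw [hP, eval_mul, eval_star' Q hz, ← hndef]
    have h1 : conj z ^ n * z ^ n = 1 := by
      rw [← mul_pow, conj_mul_self_of_norm_one hz, one_pow]
    have h2 : Q.eval z * conj (Q.eval z) = ((‖Q.eval z‖ ^ 2 : ℝ) : ℂ) := by
      rw [Complex.mul_conj, Complex.normSq_eq_norm_sq]
    rw [← h2]
    linear_combination (Q.eval z * conj (Q.eval z)) * h1
  have hPnorm : ∀ z : ℂ, ‖z‖ = 1 → ‖P.eval z‖ = ‖Q.eval z‖ ^ 2 := by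
    intro z hz
    have h := congrArg norm (hPeval z hz)
    rw [norm_mul, norm_pow, RCLike.norm_conj, hz, one_pow, one_mul, Complex.norm_real,
      Real.norm_eq_abs, abs_of_nonneg (by positivity)] at h
    exact h
  have hres := nonneg_case (P := P) (m := n) hn hPdeg hProots
    (by intro z hz; rw [hPeval z hz, hPnorm z hz]) (M := M ^ 2)
    (by
      intro z hz
      rw [hPnorm z hz]
      have := hM z hz
      have := norm_nonneg (Q.eval z)
      nlinarith)
  have hcoeff : P.coeff n = ((∑ k ∈ Finset.range (n + 1), ‖Q.coeff k‖ ^ 2 : ℝ) : ℂ) := by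
    rw [hP, coeff_mul, Finset.Nat.sum_antidiagonal_eq_sum_range_succ_mk]
    rw [Complex.ofReal_sum]
    refine Finset.sum_congr rfl fun k hk => ?_
    have hk' := Finset.mem_range.mp hk
    simp only
    rw [coeff_star' Q (by omega), ← hndef, Nat.sub_sub_self (by omega), Complex.mul_conj,
      Complex.normSq_eq_norm_sq]
  rw [hcoeff, Complex.norm_real, Real.norm_eq_abs, abs_of_nonneg (by positivity)] at hres
  exact hres

end Pool.Agent.Lib.MP_c7fa02_an
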