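import Pool.Agent.Lib.MP_c7fa02_an.MiddleCoeff
import Pool.Agent.Lib.MP_c7fa02_an.L2

set_option autoImplicit false

namespace Pool.Agent.Lib.MP_c7fa02_an

open Polynomial Complex ComplexConjugate Metric

/-- A polynomial of degree `n ≥ 1` without zeros in the open disc has `‖q_n‖ ≤ ‖q_0‖`. -/
lemma norm_lead_le {Q : ℂ[X]} (hQ : ∀ z : ℂ, ‖z‖ < 1 → Q.eval z ≠ 0) :
    ‖Q.coeff Q.natDegree‖ ≤ ‖Q.coeff 0‖ := by
  have h := schur_cohn hQ 1 0
  simp only [S, zero_add, Finset.range_one, Finset.sum_singleton, mul_one] at h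
  rw [coeff_star' Q (Nat.zero_le _), Nat.sub_zero, RCLike.norm_conj] at h
  exact (sq_le_sq₀ (norm_nonneg _) (norm_nonneg _)).mp h

lemma norm_eq_one_of_prod_eq_one (s : Multiset ℂ) (h1 : ∀ ζ ∈ s, 1 ≤ ‖ζ‖) :
    1 ≤ (s.map fun ζ => ‖ζ‖).prod ∧ ((s.map fun ζ => ‖ζ‖).prod ≤ 1 → ∀ ζ ∈ s, ‖ζ‖ = 1) := by
  induction s using Multiset.induction_on with
  | empty => simp
  | cons a s ih =>
    have ih' := ih fun ζ hζ => h1 ζ (Multiset.mem_cons_of_mem hζ)
    have ha := h1 a (Multiset.mem_cons_self a s)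
    rw [Multiset.map_cons, Multiset.prod_cons]
    refine ⟨?_, ?_⟩
    · nlinarith [ih'.1]
    · intro h ζ hζ
      have h2 : ‖a‖ ≤ 1 := by nlinarith [ih'.1]
      have h3 : (s.map fun ζ => ‖ζ‖).prod ≤ 1 := by nlinarith [ih'.1]
      rcases Multiset.mem_cons.mp hζ with h4 | h4
      · rw [h4]; exact le_antisymm h2 ha
      · exact ih'.2 h3 ζ h4

/-- Zero free in the disc with `‖q_0‖ ≤ ‖q_n‖`: all zeros are on the unit circle. -/
lemma roots_on_circle {Q : ℂ[X]} (hQ0 : Q ≠ 0) (hQ : ∀ z : ℂ, ‖z‖ < 1 → Q.eval z ≠ 0)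
    (h : ‖Q.coeff 0‖ ≤ ‖Q.coeff Q.natDegree‖) : ∀ ζ ∈ Q.roots, ‖ζ‖ = 1 := by
  have h1 : ∀ ζ ∈ Q.roots, 1 ≤ ‖ζ‖ := by
    intro ζ hζ
    by_contra hlt
    exact hQ ζ (not_le.mp hlt) (mem_roots'.mp hζ).2
  refine (norm_eq_one_of_prod_eq_one Q.roots h1).2 ?_
  have h2 := (IsAlgClosed.splits Q).coeff_zero_eq_leadingCoeff_mul_prod_roots
  have hlc : 0 < ‖Q.leadingCoeff‖ := norm_pos_iff.mpr (leadingCoeff_ne_zero.mpr hQ0)
  have h3 := congrArg norm h2
  rw [norm_mul, norm_mul, norm_pow, norm_neg, norm_one, one_pow, one_mul] at h3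
  have h4 : ‖Q.roots.prod‖ = (Q.roots.map fun ζ => ‖ζ‖).prod := by
    have := map_multiset_prod (normHom (α := ℂ)) Q.roots
    simpa using this
  rw [h4] at h3
  rw [h3] at h
  have h5 : Q.coeff Q.natDegree = Q.leadingCoeff := rfl
  rw [h5] at h
  have h6 : ‖Q.leadingCoeff‖ * (Q.roots.map fun ζ => ‖ζ‖).prod ≤ ‖Q.leadingCoeff‖ * 1 := by
    rw [mul_one]; exact h
  exact le_of_mul_le_mul_left h6 hlc

/-- If all zeros of `Q` are on the unit circle, `Q(D)` contains a disc of half the maximum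
modulus of `Q`. -/
lemma ball_of_circle {Q : ℂ[X]} (hn : 0 < Q.natDegree) (hroots : ∀ ζ ∈ Q.roots, ‖ζ‖ = 1)
    {M : ℝ} {z₀ : ℂ} (hz₀ : ‖z₀‖ = 1) (hM : ∀ z : ℂ, ‖z‖ = 1 → ‖Q.eval z‖ ≤ M)
    (hMz : ‖Q.eval z₀‖ = M) :
    ∀ w ∈ ball (Q.eval z₀ / 2) (M / 2), ∃ z' : ℂ, ‖z'‖ < 1 ∧ Q.eval z' = w := by
  intro w hw
  have hQ0 : Q ≠ 0 := by
    intro h; rw [h, natDegree_zero] at hn; exact lt_irrefl _ hn
  have hne : ∀ z : ℂ, ‖z‖ < 1 → Q.eval z ≠ 0 := by
    intro z hz h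
    have := hroots z ((mem_roots hQ0).mpr h)
    linarith
  have hnR : (0 : ℝ) < Q.natDegree := by exact_mod_cast hn
  have h1 := laguerre (P := Q) (n := Q.natDegree) le_rfl hne hz₀.le
  have h2 := laguerre_rev (P := Q) (n := Q.natDegree) le_rfl (fun ζ hζ => (hroots ζ hζ).le) hz₀.ge
  have h3 := bernstein (P := Q) hn le_rfl (fun z hz => norm_eval_le_of_sphere hM hz) hz₀.le
  obtain ⟨a, ha⟩ : ∃ a, a = z₀ * Q.derivative.eval z₀ := ⟨_, rfl⟩
  obtain ⟨b, hb⟩ : ∃ b, b = (Q.natDegree : ℂ) * Q.eval z₀ - a := ⟨_, rfl⟩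
  rw [← ha, ← hb] at h1 h2 h3
  have hab : ‖a‖ = ‖b‖ := le_antisymm h1 h2
  have hsum : a + b = (Q.natDegree : ℂ) * Q.eval z₀ := by rw [hb]; ring
  have hsumn : ‖a + b‖ = Q.natDegree * M := by
    rw [hsum, norm_mul, hMz, Complex.norm_natCast]
  have hpar : ‖a - b‖ ^ 2 = 2 * ‖a‖ ^ 2 + 2 * ‖b‖ ^ 2 - ‖a + b‖ ^ 2 := by
    simp only [← Complex.normSq_eq_norm_sq, Complex.normSq_apply, Complex.add_re, Complex.add_im,
      Complex.sub_re, Complex.sub_im]
    ring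
  have hM0 : 0 ≤ M := by rw [← hMz]; exact norm_nonneg _
  have hau : ‖a‖ ≤ Q.natDegree * M / 2 := by rw [← hab] at h3; linarith
  have hzero : ‖a - b‖ ^ 2 ≤ 0 := by
    rw [hpar, hsumn, ← hab]
    nlinarith [norm_nonneg a]
  have hab2 : a = b := by
    have h4 : ‖a - b‖ = 0 := by
      have := norm_nonneg (a - b)
      nlinarith
    exact sub_eq_zero.mp (norm_eq_zero.mp h4)
  have haq : a = (Q.natDegree : ℂ) * Q.eval z₀ / 2 := by
    rw [← hab2] at hsum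
    linear_combination hsum / 2
  have han : ‖a‖ = Q.natDegree * (M / 2) := by
    rw [haq, norm_div, norm_mul, hMz, Complex.norm_natCast]
    simp
    ring
  refine covering (P := Q) (n := Q.natDegree) le_rfl hz₀.le ?_
  rw [← ha, han]
  have e : (Q.natDegree : ℂ) * (Q.eval z₀ - w) - a = (Q.natDegree : ℂ) * (Q.eval z₀ / 2 - w) := by
    rw [haq]; ring
  rw [e, norm_mul, Complex.norm_natCast]
  rw [mem_ball, dist_comm, Complex.dist_eq] at hw
  exact mul_lt_mul_of_pos_left hw hnR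

/-- All zeros on the unit circle: every coefficient `q_l`, `0 < l < n`, is at most `M/2`
in modulus (here under the symmetry assumption on the moduli). -/
lemma coeff_le_half {Q : ℂ[X]} (hroots : ∀ ζ ∈ Q.roots, ‖ζ‖ = 1)
    {M : ℝ} (hM : ∀ z : ℂ, ‖z‖ = 1 → ‖Q.eval z‖ ≤ M) {l : ℕ} (hl : 0 < l)
    (hln : l < Q.natDegree) (hsym : ‖Q.coeff l‖ = ‖Q.coeff (Q.natDegree - l)‖) :
    ‖Q.coeff l‖ ≤ M / 2 := by
  have hM0 : 0 ≤ M := (norm_nonneg _).trans (hM 1 (by simp))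
  by_cases h : l = Q.natDegree - l
  · exact middle_coeff hl (by omega) hroots hM
  · have h1 := l2_case (Q := Q) (by omega) hroots hM
    have h2 : ∑ k ∈ ({l, Q.natDegree - l} : Finset ℕ), ‖Q.coeff k‖ ^ 2
        ≤ ∑ k ∈ Finset.range (Q.natDegree + 1), ‖Q.coeff k‖ ^ 2 := by
      apply Finset.sum_le_sum_of_subset_of_nonneg
      · intro k hk
        simp only [Finset.mem_insert, Finset.mem_singleton] at hk
        rw [Finset.mem_range]
        omega
      · intro k _ _; positivity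
    rw [Finset.sum_pair h, ← hsym] at h2
    have h3 : ‖Q.coeff l‖ ^ 2 ≤ (M / 2) ^ 2 := by nlinarith
    exact (sq_le_sq₀ (norm_nonneg _) (by linarith)).mp h3

/-- Main theorem for polynomials with `‖p_k‖ = ‖p_{n-k}‖`. -/
theorem exists_ball {P : ℂ[X]} (hn : 0 < P.natDegree)
    (hsym : ∀ k, k ≤ P.natDegree → ‖P.coeff k‖ = ‖P.coeff (P.natDegree - k)‖) {l : ℕ}
    (hl : l ≤ P.natDegree) :
    ∃ w₀ : ℂ, ball w₀ ‖P.coeff l‖ ⊆ (fun z => P.eval z) '' ball (0 : ℂ) 1 := by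
  -- facts on `P - C w`
  have hdeg : ∀ w : ℂ, (P - C w).natDegree = P.natDegree := fun w => natDegree_sub_C
  have hc0 : ∀ w : ℂ, (P - C w).coeff 0 = P.coeff 0 - w := by intro w; simp
  have hcs : ∀ (w : ℂ) (k : ℕ), 0 < k → (P - C w).coeff k = P.coeff k := by
    intro w k hk
    rw [coeff_sub, coeff_C, if_neg hk.ne', sub_zero]
  have hne : ∀ w : ℂ, w ∉ (fun z => P.eval z) '' ball (0 : ℂ) 1 →
      ∀ z : ℂ, ‖z‖ < 1 → (P - C w).eval z ≠ 0 := by
    intro w hw z hz h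
    apply hw
    refine ⟨z, by rw [mem_ball_zero_iff]; exact hz, ?_⟩
    simpa [sub_eq_zero] using h
  by_cases hA0 : ‖P.coeff l‖ = 0
  · exact ⟨0, by rw [hA0, ball_zero]; exact Set.empty_subset _⟩
  by_cases hend : l = 0 ∨ l = P.natDegree
  · -- the extreme coefficients
    have hA : ‖P.coeff l‖ = ‖P.coeff P.natDegree‖ := by
      rcases hend with h | h
      · rw [h, hsym 0 (Nat.zero_le _), Nat.sub_zero]
      · rw [h]
    refine ⟨P.coeff 0, fun w hw => ?_⟩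
    by_contra hcon
    have h1 := norm_lead_le (hne w hcon)
    rw [hdeg, hcs w _ hn, hc0] at h1
    rw [hA, mem_ball, dist_comm, Complex.dist_eq] at hw
    linarith
  push Not at hend
  have hl0 : 0 < l := Nat.pos_of_ne_zero hend.1
  have hln : l < P.natDegree := lt_of_le_of_ne hl hend.2
  obtain ⟨A, hA⟩ : ∃ A, A = ‖P.coeff l‖ := ⟨_, rfl⟩
  have hApos : 0 < A := by rw [hA]; exact lt_of_le_of_ne (norm_nonneg _) (Ne.symm hA0)
  have hA' : ‖P.coeff (P.natDegree - l)‖ = A := by rw [hA, hsym l hl]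
  rw [← hA]
  obtain ⟨y, hy⟩ : ∃ y : ℂ, y = conj (P.coeff P.natDegree) * P.coeff l *
    P.coeff (P.natDegree - l) / (A : ℂ) ^ 2 := ⟨_, rfl⟩
  have hAC : (A : ℂ) ≠ 0 := by exact_mod_cast hApos.ne'
  have hyn : ‖y‖ = ‖P.coeff P.natDegree‖ := by
    rw [hy, norm_div, norm_mul, norm_mul, RCLike.norm_conj, hA', ← hA, norm_pow,
      Complex.norm_real, Real.norm_eq_abs, abs_of_pos hApos]
    field_simp
  have hycl : P.coeff l * conj y = conj (P.coeff (P.natDegree - l)) * P.coeff P.natDegree := by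
    have h1 : P.coeff l * conj (P.coeff l) = (A : ℂ) ^ 2 := by
      rw [Complex.mul_conj, Complex.normSq_eq_norm_sq, ← hA]; push_cast; rfl
    rw [hy, map_div₀, map_mul, map_mul, Complex.conj_conj, map_pow, Complex.conj_ofReal]
    field_simp
    linear_combination (P.coeff P.natDegree * conj (P.coeff (P.natDegree - l))) * h1
  -- key dichotomy
  have key : ∀ w : ℂ, w ∉ (fun z => P.eval z) '' ball (0 : ℂ) 1 →
      w = P.coeff 0 - y ∨ A ≤ ‖(P.coeff 0 + y) - w‖ := by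
    intro w hw
    have h1 := coeff_ineq (hne w hw) hl0 (by rw [hdeg]; exact hl) (by
      intro j hj hjl
      rw [hdeg, hcs w j hj, hcs w (P.natDegree - j) (by omega)]
      exact hsym j (by omega))
    rw [hdeg, hcs w l hl0, hcs w (P.natDegree - l) (by omega), hcs w _ hn, hc0, ← hycl,
      ← mul_sub, norm_mul, ← hA, ← map_sub, RCLike.norm_conj, ← hyn] at h1
    by_cases hxy : P.coeff 0 - w = y
    · left; rw [← hxy]; ring
    right
    have hpos : 0 < ‖P.coeff 0 - w - y‖ := norm_pos_iff.mpr (sub_ne_zero.mpr hxy)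
    have h2 : ‖P.coeff 0 - w‖ ^ 2 - ‖y‖ ^ 2 ≤ ‖P.coeff 0 - w - y‖ * ‖P.coeff 0 - w + y‖ := by
      have h3 : ‖P.coeff 0 - w‖ ^ 2 - ‖y‖ ^ 2
          = ((P.coeff 0 - w - y) * conj (P.coeff 0 - w + y)).re := by
        simp only [← Complex.normSq_eq_norm_sq, Complex.normSq_apply, Complex.add_re,
          Complex.add_im, Complex.sub_re, Complex.sub_im, Complex.mul_re,
          Complex.conj_re, Complex.conj_im]
        ring
      rw [h3]
      refine (Complex.re_le_norm _).trans ?_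
      rw [norm_mul, RCLike.norm_conj]
    have h4 : ‖P.coeff 0 - w - y‖ * A ≤ ‖P.coeff 0 - w - y‖ * ‖P.coeff 0 - w + y‖ := by
      linarith
    have h5 := le_of_mul_le_mul_left h4 hpos
    have h6 : P.coeff 0 + y - w = P.coeff 0 - w + y := by ring
    rw [h6]
    exact h5
  by_cases hexc : P.coeff 0 - y ∈ (fun z => P.eval z) '' ball (0 : ℂ) 1 ∨
      A ≤ ‖(P.coeff 0 + y) - (P.coeff 0 - y)‖
  · refine ⟨P.coeff 0 + y, fun w hw => ?_⟩
    by_contra hcon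
    rw [mem_ball, dist_comm, Complex.dist_eq] at hw
    rcases key w hcon with h | h
    · rcases hexc with h' | h'
      · rw [h] at hcon; exact hcon h'
      · rw [← h] at h'; linarith
    · linarith
  push Not at hexc
  obtain ⟨hex1, _⟩ := hexc
  -- exceptional case: all zeros of `Q` on the circle
  obtain ⟨w₀, hw₀⟩ : ∃ w₀, w₀ = P.coeff 0 - y := ⟨_, rfl⟩
  rw [← hw₀] at hex1
  obtain ⟨Q, hQ⟩ : ∃ Q, Q = P - C w₀ := ⟨_, rfl⟩
  have hQne := hne w₀ hex1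
  rw [← hQ] at hQne
  have hQdeg : Q.natDegree = P.natDegree := by rw [hQ, hdeg]
  have hQc0 : Q.coeff 0 = y := by rw [hQ, hc0, hw₀]; ring
  have hQcs : ∀ k, 0 < k → Q.coeff k = P.coeff k := fun k hk => by rw [hQ, hcs w₀ k hk]
  have hQ0 : Q ≠ 0 := by
    intro h; rw [h, natDegree_zero] at hQdeg; omega
  have hQroots := roots_on_circle hQ0 hQne (by
    rw [hQc0, hyn, hQdeg, hQcs _ hn])
  -- maximum on the circle
  obtain ⟨z₀, hz₀, hmax⟩ := (isCompact_sphere (0 : ℂ) 1).exists_isMaxOn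
    ⟨1, by simp⟩ (f := fun z => ‖Q.eval z‖) (Q.continuous.norm.continuousOn)
  rw [mem_sphere_zero_iff_norm] at hz₀
  have hM : ∀ z : ℂ, ‖z‖ = 1 → ‖Q.eval z‖ ≤ ‖Q.eval z₀‖ := by
    intro z hz
    exact hmax (by rw [mem_sphere_zero_iff_norm]; exact hz)
  have hhalf : A ≤ ‖Q.eval z₀‖ / 2 := by
    rw [hA, ← hQcs l hl0]
    refine coeff_le_half hQroots hM hl0 (by rw [hQdeg]; exact hln) ?_
    rw [hQdeg, hQcs l hl0, hQcs (P.natDegree - l) (by omega)]
    exact hsym l hl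
  refine ⟨Q.eval z₀ / 2 + w₀, fun w hw => ?_⟩
  have hw' : w - w₀ ∈ ball (Q.eval z₀ / 2) (‖Q.eval z₀‖ / 2) := by
    rw [mem_ball, Complex.dist_eq] at hw ⊢
    have : w - w₀ - Q.eval z₀ / 2 = w - (Q.eval z₀ / 2 + w₀) := by ring
    rw [this]
    linarith
  obtain ⟨z', hz', h⟩ := ball_of_circle (by rw [hQdeg]; exact hn) hQroots hz₀ hM rfl _ hw'
  refine ⟨z', by rw [mem_ball_zero_iff]; exact hz', ?_⟩
  rw [hQ, eval_sub, eval_C] at h
  simp only
  linear_combination h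

end Pool.Agent.Lib.MP_c7fa02_an
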