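import Mathlib

set_option autoImplicit false

namespace Pool.Agent.Lib.MP_c7fa02_an

open Polynomial Complex

/-- For `‖z‖ ≤ 1 ≤ ‖ζ‖`, `z ≠ ζ`, the real part of `z/(z-ζ)` is at most `1/2`. -/
lemma re_div_sub_le {z ζ : ℂ} (hz : ‖z‖ ≤ 1) (hζ : 1 ≤ ‖ζ‖) (hne : z ≠ ζ) :
    (z / (z - ζ)).re ≤ 1 / 2 := by
  have h0 : z - ζ ≠ 0 := sub_ne_zero.mpr hne
  have hn : 0 < Complex.normSq (z - ζ) := Complex.normSq_pos.mpr h0
  rw [Complex.div_re, ← add_div, div_le_iff₀ hn]
  have h1 : Complex.normSq z ≤ 1 := by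
    rw [Complex.normSq_eq_norm_sq]; nlinarith [norm_nonneg z]
  have h2 : 1 ≤ Complex.normSq ζ := by
    rw [Complex.normSq_eq_norm_sq]; nlinarith [norm_nonneg ζ]
  rw [Complex.normSq_apply] at *
  simp only [Complex.sub_re, Complex.sub_im] at *
  nlinarith

/-- For `‖ζ‖ ≤ 1 ≤ ‖z‖`, `z ≠ ζ`, the real part of `z/(z-ζ)` is at least `1/2`. -/
lemma le_re_div_sub {z ζ : ℂ} (hz : 1 ≤ ‖z‖) (hζ : ‖ζ‖ ≤ 1) (hne : z ≠ ζ) :
    1 / 2 ≤ (z / (z - ζ)).re := by
  have h0 : z - ζ ≠ 0 := sub_ne_zero.mpr hne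
  have hn : 0 < Complex.normSq (z - ζ) := Complex.normSq_pos.mpr h0
  rw [Complex.div_re, ← add_div, le_div_iff₀ hn]
  have h1 : 1 ≤ Complex.normSq z := by
    rw [Complex.normSq_eq_norm_sq]; nlinarith [norm_nonneg z]
  have h2 : Complex.normSq ζ ≤ 1 := by
    rw [Complex.normSq_eq_norm_sq]; nlinarith [norm_nonneg ζ]
  rw [Complex.normSq_apply] at *
  simp only [Complex.sub_re, Complex.sub_im] at *
  nlinarith

lemma re_multiset_sum (s : Multiset ℂ) : (s.sum).re = (s.map Complex.re).sum := by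
  induction s using Multiset.induction_on with
  | empty => simp
  | cons a s ih => simp [ih]

/-- `z P'(z) / P(z)` as a sum over the roots. -/
lemma mul_derivative_div (P : ℂ[X]) {z : ℂ} (hz : P.eval z ≠ 0) :
    z * P.derivative.eval z / P.eval z = (P.roots.map fun ζ => z / (z - ζ)).sum := by
  have h := (IsAlgClosed.splits P).eval_derivative_div_eval_of_ne_zero hz
  rw [mul_div_assoc, h, ← Multiset.sum_map_mul_left]
  congr 1
  refine Multiset.map_congr rfl fun ζ _ => ?_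
  rw [mul_one_div]

/-- If all roots lie in `1 ≤ ‖ζ‖` then `Re (z P'(z)/P(z)) ≤ natDegree / 2` for `‖z‖ ≤ 1`. -/
lemma re_log_deriv_le (P : ℂ[X]) {z : ℂ} (hz : ‖z‖ ≤ 1) (hP : P.eval z ≠ 0)
    (hroots : ∀ ζ ∈ P.roots, 1 ≤ ‖ζ‖) :
    (z * P.derivative.eval z / P.eval z).re ≤ P.natDegree / 2 := by
  rw [mul_derivative_div P hP, re_multiset_sum, Multiset.map_map]
  have hcard : P.roots.card = P.natDegree := (IsAlgClosed.splits P).natDegree_eq_card_roots.symm
  have := Multiset.sum_le_card_nsmul (P.roots.map (Complex.re ∘ fun ζ => z / (z - ζ))) (1 / 2 : ℝ)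
    (by
      intro x hx
      rw [Multiset.mem_map] at hx
      obtain ⟨ζ, hζ, rfl⟩ := hx
      apply re_div_sub_le hz (hroots ζ hζ)
      rintro rfl
      exact hP ((mem_roots'.mp hζ).2))
  rw [Multiset.card_map, hcard] at this
  simp only [nsmul_eq_mul] at this
  linarith

/-- If all roots lie in `‖ζ‖ ≤ 1` then `natDegree / 2 ≤ Re (z P'(z)/P(z))` for `1 ≤ ‖z‖`. -/
lemma le_re_log_deriv (P : ℂ[X]) {z : ℂ} (hz : 1 ≤ ‖z‖) (hP : P.eval z ≠ 0)
    (hroots : ∀ ζ ∈ P.roots, ‖ζ‖ ≤ 1) :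
    (P.natDegree / 2 : ℝ) ≤ (z * P.derivative.eval z / P.eval z).re := by
  rw [mul_derivative_div P hP, re_multiset_sum, Multiset.map_map]
  have hcard : P.roots.card = P.natDegree := (IsAlgClosed.splits P).natDegree_eq_card_roots.symm
  have := Multiset.card_nsmul_le_sum (s := P.roots.map (Complex.re ∘ fun ζ => z / (z - ζ)))
    (a := (1 / 2 : ℝ))
    (by
      intro x hx
      rw [Multiset.mem_map] at hx
      obtain ⟨ζ, hζ, rfl⟩ := hx
      apply le_re_div_sub hz (hroots ζ hζ)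
      rintro rfl
      exact hP ((mem_roots'.mp hζ).2))
  rw [Multiset.card_map, hcard] at this
  simp only [nsmul_eq_mul] at this
  linarith

/-- For `w` with `Re w ≤ n/2`: `‖w‖ ≤ ‖n - w‖`. -/
lemma norm_le_norm_sub_of_re_le {w : ℂ} {n : ℝ} (hn : 0 ≤ n) (h : w.re ≤ n / 2) :
    ‖w‖ ≤ ‖(n : ℂ) - w‖ := by
  have h2 : Complex.normSq w ≤ Complex.normSq ((n : ℂ) - w) := by
    rw [Complex.normSq_apply, Complex.normSq_apply]
    simp only [Complex.sub_re, Complex.sub_im, Complex.ofReal_re, Complex.ofReal_im]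
    nlinarith
  rw [Complex.normSq_eq_norm_sq, Complex.normSq_eq_norm_sq] at h2
  exact le_of_sq_le_sq h2 (norm_nonneg _)

lemma norm_sub_le_norm_of_le_re {w : ℂ} {n : ℝ} (hn : 0 ≤ n) (h : n / 2 ≤ w.re) :
    ‖(n : ℂ) - w‖ ≤ ‖w‖ := by
  have h2 : Complex.normSq ((n : ℂ) - w) ≤ Complex.normSq w := by
    rw [Complex.normSq_apply, Complex.normSq_apply]
    simp only [Complex.sub_re, Complex.sub_im, Complex.ofReal_re, Complex.ofReal_im]
    nlinarith
  rw [Complex.normSq_eq_norm_sq, Complex.normSq_eq_norm_sq] at h2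
  exact le_of_sq_le_sq h2 (norm_nonneg _)

/-- Laguerre: if `P` has degree `≤ n` and no zeros in the open disc, then
`‖z P'(z)‖ ≤ ‖n P(z) - z P'(z)‖` on the closed disc. -/
theorem laguerre {P : ℂ[X]} {n : ℕ} (hn : P.natDegree ≤ n)
    (hP : ∀ z : ℂ, ‖z‖ < 1 → P.eval z ≠ 0) {z : ℂ} (hz : ‖z‖ ≤ 1) :
    ‖z * P.derivative.eval z‖ ≤ ‖(n : ℂ) * P.eval z - z * P.derivative.eval z‖ := by
  by_cases h0 : P.eval z = 0
  · rw [h0, mul_zero, zero_sub, norm_neg]
  have hroots : ∀ ζ ∈ P.roots, 1 ≤ ‖ζ‖ := by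
    intro ζ hζ
    by_contra hlt
    exact hP ζ (not_le.mp hlt) (mem_roots'.mp hζ).2
  have h1 := re_log_deriv_le P hz h0 hroots
  have h2 : (z * P.derivative.eval z / P.eval z).re ≤ (n : ℝ) / 2 := by
    have : (P.natDegree : ℝ) ≤ n := by exact_mod_cast hn
    linarith
  have h3 := norm_le_norm_sub_of_re_le (Nat.cast_nonneg n) h2
  have hpos : 0 < ‖P.eval z‖ := norm_pos_iff.mpr h0
  have e1 : z * P.derivative.eval z = (z * P.derivative.eval z / P.eval z) * P.eval z := by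
    field_simp
  have e2 : (n : ℂ) * P.eval z - z * P.derivative.eval z
      = (((n : ℝ) : ℂ) - z * P.derivative.eval z / P.eval z) * P.eval z := by
    push_cast
    field_simp
  calc ‖z * P.derivative.eval z‖
      = ‖z * P.derivative.eval z / P.eval z‖ * ‖P.eval z‖ := by
        rw [← norm_mul (z * P.derivative.eval z / P.eval z), ← e1]
    _ ≤ ‖((n : ℝ) : ℂ) - z * P.derivative.eval z / P.eval z‖ * ‖P.eval z‖ :=
        mul_le_mul_of_nonneg_right h3 (norm_nonneg _)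
    _ = _ := by rw [e2, norm_mul]

/-- If all zeros of `P` lie in the closed disc and `n ≤ natDegree P`, then
`‖n P(z) - z P'(z)‖ ≤ ‖z P'(z)‖` outside the open disc. -/
theorem laguerre_rev {P : ℂ[X]} {n : ℕ} (hn : n ≤ P.natDegree)
    (hP : ∀ ζ ∈ P.roots, ‖ζ‖ ≤ 1) {z : ℂ} (hz : 1 ≤ ‖z‖) :
    ‖(n : ℂ) * P.eval z - z * P.derivative.eval z‖ ≤ ‖z * P.derivative.eval z‖ := by
  by_cases h0 : P.eval z = 0
  · rw [h0, mul_zero, zero_sub, norm_neg]
  have h1 := le_re_log_deriv P hz h0 hP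
  have h2 : (n : ℝ) / 2 ≤ (z * P.derivative.eval z / P.eval z).re := by
    have : (n : ℝ) ≤ P.natDegree := by exact_mod_cast hn
    linarith
  have h3 := norm_sub_le_norm_of_le_re (Nat.cast_nonneg n) h2
  have e1 : z * P.derivative.eval z = (z * P.derivative.eval z / P.eval z) * P.eval z := by
    field_simp
  have e2 : (n : ℂ) * P.eval z - z * P.derivative.eval z
      = (((n : ℝ) : ℂ) - z * P.derivative.eval z / P.eval z) * P.eval z := by
    push_cast
    field_simp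
  calc ‖(n : ℂ) * P.eval z - z * P.derivative.eval z‖
      = ‖((n : ℝ) : ℂ) - z * P.derivative.eval z / P.eval z‖ * ‖P.eval z‖ := by
        rw [e2, norm_mul]
    _ ≤ ‖z * P.derivative.eval z / P.eval z‖ * ‖P.eval z‖ :=
        mul_le_mul_of_nonneg_right h3 (norm_nonneg _)
    _ = _ := by rw [← norm_mul (z * P.derivative.eval z / P.eval z), ← e1]

/-- Covering lemma: the disc centred at `P(z) - z P'(z)/n` of radius `‖z P'(z)/n‖` lies in
the image of the open unit disc. Stated multiplied by `n`. -/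
theorem covering {P : ℂ[X]} {n : ℕ} (hn : P.natDegree ≤ n) {z w : ℂ} (hz : ‖z‖ ≤ 1)
    (hw : ‖(n : ℂ) * (P.eval z - w) - z * P.derivative.eval z‖ < ‖z * P.derivative.eval z‖) :
    ∃ z' : ℂ, ‖z'‖ < 1 ∧ P.eval z' = w := by
  by_contra hcon
  push Not at hcon
  have hQ : ∀ z : ℂ, ‖z‖ < 1 → (P - C w).eval z ≠ 0 := by
    intro z hz h
    apply hcon z hz
    simpa [sub_eq_zero] using h
  have hdeg : (P - C w).natDegree ≤ n := by
    rw [natDegree_sub_C]; exact hn
  have := laguerre hdeg hQ hz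
  simp only [derivative_sub, derivative_C, sub_zero, eval_sub, eval_C] at this
  exact absurd hw (not_lt.mpr this)

/-- Bernstein-type inequality: if `‖P‖ ≤ M` on the closed disc, then
`‖z P'(z)‖ + ‖n P(z) - z P'(z)‖ ≤ n M` there. -/
theorem bernstein {P : ℂ[X]} {n : ℕ} (hn0 : 0 < n) (hn : P.natDegree ≤ n) {M : ℝ}
    (hM : ∀ z : ℂ, ‖z‖ ≤ 1 → ‖P.eval z‖ ≤ M) {z : ℂ} (hz : ‖z‖ ≤ 1) :
    ‖z * P.derivative.eval z‖ + ‖(n : ℂ) * P.eval z - z * P.derivative.eval z‖ ≤ n * M := by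
  have hM0 : 0 ≤ M := (norm_nonneg _).trans (hM 0 (by simp))
  have hnpos : (0 : ℝ) < n := by exact_mod_cast hn0
  obtain ⟨q, hq⟩ : ∃ q, q = z * P.derivative.eval z := ⟨_, rfl⟩
  obtain ⟨f, hf⟩ : ∃ f, f = (n : ℂ) * P.eval z - q := ⟨_, rfl⟩
  rw [← hq, ← hf]
  -- key: for all `μ` with `‖μ‖ > M`, `‖q‖ ≤ ‖f - n μ‖`.
  have key : ∀ μ : ℂ, M < ‖μ‖ → ‖q‖ ≤ ‖f - n * μ‖ := by
    intro μ hμ
    have hQ : ∀ z : ℂ, ‖z‖ < 1 → (P - C μ).eval z ≠ 0 := by
      intro z hz h
      have h' : P.eval z = μ := by simpa [sub_eq_zero] using h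
      have := hM z hz.le
      rw [h'] at this
      linarith
    have hdeg : (P - C μ).natDegree ≤ n := by
      rw [natDegree_sub_C]; exact hn
    have := laguerre hdeg hQ hz
    simp only [derivative_sub, derivative_C, sub_zero, eval_sub, eval_C] at this
    have e : f - n * μ = (n : ℂ) * (P.eval z - μ) - z * P.derivative.eval z := by
      rw [hf, hq]; ring
    rw [e, hq]
    exact this
  have hfle : ‖f‖ ≤ n * M := by
    by_contra hlt
    rw [not_le] at hlt
    have hμ : M < ‖f / n‖ := by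
      rw [norm_div, Complex.norm_natCast, lt_div_iff₀ hnpos]; linarith
    have h1 := key (f / n) hμ
    have hn' : (n : ℂ) ≠ 0 := by exact_mod_cast hn0.ne'
    rw [mul_div_cancel₀ _ hn', sub_self, norm_zero] at h1
    have hq0 : q = 0 := norm_le_zero_iff.mp h1
    have : ‖f‖ = n * ‖P.eval z‖ := by
      rw [hf, hq0, sub_zero, norm_mul, Complex.norm_natCast]
    have h2 := hM z hz
    nlinarith
  by_cases hf0 : f = 0
  · rw [hf0, norm_zero, add_zero]
    refine le_of_forall_gt_imp_ge_of_dense fun t ht => ?_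
    have htn : M < t / n := by rw [lt_div_iff₀ hnpos]; linarith
    have h1 := key ((t / n : ℝ) : ℂ) (by
      rw [Complex.norm_real, Real.norm_eq_abs]
      exact lt_of_lt_of_le htn (le_abs_self _))
    rw [hf0, zero_sub, norm_neg, norm_mul, Complex.norm_natCast, Complex.norm_real,
      Real.norm_eq_abs, abs_of_pos (lt_of_le_of_lt hM0 htn)] at h1
    rwa [mul_div_cancel₀ _ hnpos.ne'] at h1
  · have hfpos : 0 < ‖f‖ := norm_pos_iff.mpr hf0
    have : ∀ t : ℝ, n * M < t → ‖q‖ + ‖f‖ ≤ t := by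
      intro t ht
      have ht0 : 0 < t := lt_of_le_of_lt (by positivity) ht
      have h1 := key ((t / (n * ‖f‖) : ℝ) * f) (by
        rw [norm_mul, Complex.norm_real, Real.norm_eq_abs, abs_of_pos (by positivity)]
        rw [div_mul_eq_mul_div, lt_div_iff₀ (by positivity)]
        nlinarith)
      have e : f - n * (((t / (n * ‖f‖) : ℝ) : ℂ) * f) = ((1 - t / ‖f‖ : ℝ) : ℂ) * f := by
        have hn' : (n : ℂ) ≠ 0 := by exact_mod_cast hn0.ne'
        have hf' : ((‖f‖ : ℝ) : ℂ) ≠ 0 := by exact_mod_cast hfpos.ne'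
        push_cast
        field_simp
      rw [e, norm_mul, Complex.norm_real, Real.norm_eq_abs] at h1
      have h2 : 1 - t / ‖f‖ ≤ 0 := by
        rw [sub_nonpos, le_div_iff₀ hfpos]; linarith
      rw [abs_of_nonpos h2] at h1
      have h3 : -(1 - t / ‖f‖) * ‖f‖ = t - ‖f‖ := by field_simp; ring
      rw [h3] at h1
      linarith
    exact le_of_forall_gt_imp_ge_of_dense this

end Pool.Agent.Lib.MP_c7fa02_an
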