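import Pool.Agent.Lib.MP_c7fa02_an.Basic

set_option autoImplicit false

namespace Pool.Agent.Lib.MP_c7fa02_an

open Polynomial Complex ComplexConjugate

lemma hasDerivAt_aux (Q : ℂ[X]) (m : ℕ) (θ : ℝ) :
    HasDerivAt (fun θ : ℝ => cexp (-(m * θ * I)) * Q.eval (cexp (θ * I)))
      (I * (cexp (-(m * θ * I)) * (cexp (θ * I) * Q.derivative.eval (cexp (θ * I))
        - m * Q.eval (cexp (θ * I))))) θ := by
  have h1 : HasDerivAt (fun θ : ℝ => cexp (-(m * θ * I))) (cexp (-(m * θ * I)) * (-(m * 1 * I))) θ := by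
    have h0 : HasDerivAt (fun θ : ℝ => (θ : ℂ)) 1 θ := Complex.ofRealCLM.hasDerivAt
    exact ((((h0.const_mul (m : ℂ))).mul_const I).neg).cexp
  have h2 : HasDerivAt (fun θ : ℝ => cexp (θ * I)) (cexp (θ * I) * (1 * I)) θ := by
    have h0 : HasDerivAt (fun θ : ℝ => (θ : ℂ)) 1 θ := Complex.ofRealCLM.hasDerivAt
    exact (h0.mul_const I).cexp
  have h3 : HasDerivAt (fun θ : ℝ => Q.eval (cexp (θ * I)))
      (Q.derivative.eval (cexp (θ * I)) * (cexp (θ * I) * (1 * I))) θ := by
    have h := (Q.hasDerivAt (cexp (θ * I))).scomp θ h2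
    rw [smul_eq_mul, mul_comm] at h
    exact h
  have h4 := h1.mul h3
  have e : I * (cexp (-(m * θ * I)) * (cexp (θ * I) * Q.derivative.eval (cexp (θ * I))
        - m * Q.eval (cexp (θ * I))))
      = cexp (-(m * θ * I)) * (-(m * 1 * I)) * Q.eval (cexp (θ * I))
        + cexp (-(m * θ * I)) * (Q.derivative.eval (cexp (θ * I)) * (cexp (θ * I) * (1 * I))) := by
    ring
  rw [e]
  exact h4

lemma conj_pow_eq (m : ℕ) (θ : ℝ) : conj (cexp (θ * I)) ^ m = cexp (-(m * θ * I)) := by
  rw [← Complex.exp_conj, ← Complex.exp_nat_mul]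
  congr 1
  rw [map_mul, Complex.conj_ofReal, Complex.conj_I]
  ring

lemma exists_angle {z : ℂ} (hz : ‖z‖ = 1) : ∃ θ : ℝ, z = cexp (θ * I) := by
  refine ⟨z.arg, ?_⟩
  have := Complex.norm_mul_exp_arg_mul_I z
  rw [hz] at this
  simpa using this.symm

/-- If `conj z ^ m * Q z` is real on the unit circle then `conj z ^ m (z Q' - m Q)` is purely
imaginary there. -/
lemma re_deriv_zero {Q : ℂ[X]} {m : ℕ}
    (h : ∀ z : ℂ, ‖z‖ = 1 → (conj z ^ m * Q.eval z).im = 0) {z : ℂ} (hz : ‖z‖ = 1) :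
    (conj z ^ m * (z * Q.derivative.eval z - m * Q.eval z)).re = 0 := by
  obtain ⟨θ, rfl⟩ := exists_angle hz
  have hd := hasDerivAt_aux Q m θ
  have him := (Complex.imCLM.hasFDerivAt.comp_hasDerivAt θ hd)
  have hconst : (fun θ : ℝ => (cexp (-(m * θ * I)) * Q.eval (cexp (θ * I))).im) = fun _ => 0 := by
    funext t
    rw [← conj_pow_eq]
    exact h _ (Complex.norm_exp_ofReal_mul_I t)
  have h0 : HasDerivAt (fun θ : ℝ => (cexp (-(m * θ * I)) * Q.eval (cexp (θ * I))).im) 0 θ := by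
    rw [hconst]; exact hasDerivAt_const θ 0
  have := him.unique h0
  rw [conj_pow_eq]
  simpa [Complex.mul_im] using this

lemma self_inv_props {Q : ℂ[X]} {m : ℕ}
    (h : ∀ z : ℂ, ‖z‖ = 1 → (conj z ^ m * Q.eval z).im = 0) {z : ℂ} (hz : ‖z‖ = 1) :
    ‖z * Q.derivative.eval z‖ = ‖(2 * m : ℂ) * Q.eval z - z * Q.derivative.eval z‖ ∧
    (conj z ^ m * ((2 * m : ℂ) * Q.eval z - z * Q.derivative.eval z)).re
      = m * (conj z ^ m * Q.eval z).re := by
  have h1 := re_deriv_zero h hz
  have h2 := h z hz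
  have hc : ‖conj z ^ m‖ = 1 := by rw [norm_pow, RCLike.norm_conj, hz, one_pow]
  set c := conj z ^ m with hcdef
  set a := z * Q.derivative.eval z with ha
  set b := Q.eval z with hb
  have e1 : ‖a‖ = ‖c * a‖ := by rw [norm_mul c a, hc, one_mul]
  have e2 : ‖(2 * m : ℂ) * b - a‖ = ‖c * ((2 * m : ℂ) * b - a)‖ := by
    rw [norm_mul c _, hc, one_mul]
  -- c a = m s + X, with X imaginary
  have hX : c * a = m * (c * b) + c * (a - m * b) := by ring
  have hY : c * ((2 * m : ℂ) * b - a) = m * (c * b) - c * (a - m * b) := by ring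
  constructor
  · rw [e1, e2, hX, hY]
    have : ∀ s X : ℂ, s.im = 0 → X.re = 0 → ‖(m : ℂ) * s + X‖ = ‖(m : ℂ) * s - X‖ := by
      intro s X hs hX
      have : ‖(m : ℂ) * s + X‖ ^ 2 = ‖(m : ℂ) * s - X‖ ^ 2 := by
        simp only [← Complex.normSq_eq_norm_sq, Complex.normSq_apply, Complex.add_re,
          Complex.add_im, Complex.sub_re, Complex.sub_im, Complex.mul_re, Complex.mul_im,
          Complex.natCast_re, Complex.natCast_im, hs, hX]
        ring
      exact (sq_eq_sq₀ (norm_nonneg _) (norm_nonneg _)).mp this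
    exact this _ _ h2 h1
  · rw [hY, Complex.sub_re, h1, Complex.mul_re, Complex.natCast_re, Complex.natCast_im]
    ring

/-- If `conj z ^ m * P z ≥ 0` on the unit circle then zeros on the circle are multiple. -/
lemma derivative_eval_eq_zero {P : ℂ[X]} {m : ℕ}
    (hpos : ∀ z : ℂ, ‖z‖ = 1 → conj z ^ m * P.eval z = (‖P.eval z‖ : ℂ)) {z : ℂ} (hz : ‖z‖ = 1)
    (h0 : P.eval z = 0) : P.derivative.eval z = 0 := by
  have him : ∀ z : ℂ, ‖z‖ = 1 → (conj z ^ m * P.eval z).im = 0 := by
    intro z hz; rw [hpos z hz]; exact Complex.ofReal_im _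
  have h1 := re_deriv_zero him hz
  obtain ⟨θ, rfl⟩ := exists_angle hz
  have hd := hasDerivAt_aux P m θ
  have hre := (Complex.reCLM.hasFDerivAt.comp_hasDerivAt θ hd)
  have hmin : IsLocalMin (fun θ : ℝ => (cexp (-(m * θ * I)) * P.eval (cexp (θ * I))).re) θ := by
    refine Filter.Eventually.of_forall fun t => ?_
    simp only []
    rw [h0, mul_zero, Complex.zero_re, ← conj_pow_eq, hpos _ (Complex.norm_exp_ofReal_mul_I t),
      Complex.ofReal_re]
    exact norm_nonneg _
  have h2 := hmin.hasDerivAt_eq_zero hre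
  rw [conj_pow_eq] at h1
  rw [h0, mul_zero, sub_zero] at h1 h2
  have h3 : (cexp (-(m * θ * I)) * (cexp (θ * I) * P.derivative.eval (cexp (θ * I)))).im = 0 := by
    have e : ∀ X : ℂ, Complex.reCLM (I * X) = 0 → X.im = 0 := by
      intro X hX
      have : Complex.reCLM (I * X) = - X.im := by simp
      linarith
    exact e _ h2
  have h4 : cexp (-(m * θ * I)) * (cexp (θ * I) * P.derivative.eval (cexp (θ * I))) = 0 :=
    Complex.ext h1 h3
  have h5 := (mul_eq_zero.mp h4).resolve_left (Complex.exp_ne_zero _)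
  exact (mul_eq_zero.mp h5).resolve_left (Complex.exp_ne_zero _)

/-- A bound valid on the circle away from the zeros of a nonzero polynomial is valid on the whole
circle. -/
lemma le_on_circle_of_le_off_roots {P : ℂ[X]} (hP : P ≠ 0) {h : ℂ → ℝ} (hcont : Continuous h)
    {c : ℝ} (H : ∀ z : ℂ, ‖z‖ = 1 → P.eval z ≠ 0 → h z ≤ c) {z : ℂ} (hz : ‖z‖ = 1) : h z ≤ c := by
  by_contra hlt
  rw [not_le] at hlt
  obtain ⟨θ, rfl⟩ := exists_angle hz
  have hc2 : Continuous (fun t : ℝ => h (cexp (t * I))) := by fun_prop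
  have hopen : IsOpen {t : ℝ | c < h (cexp (t * I))} := isOpen_lt continuous_const hc2
  obtain ⟨δ, hδ, hball⟩ := Metric.isOpen_iff.mp hopen θ hlt
  have hinf : Set.Infinite (Set.Ioo θ (θ + min δ 1)) :=
    Set.Ioo_infinite (by have : 0 < min δ 1 := lt_min hδ one_pos; linarith)
  have hmaps : Set.MapsTo (fun t : ℝ => cexp (t * I)) (Set.Ioo θ (θ + min δ 1))
      {x | P.IsRoot x} := by
    intro t ht
    have hmem : t ∈ Metric.ball θ δ := by
      rw [Metric.mem_ball, Real.dist_eq, abs_lt]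
      have := min_le_left δ 1
      constructor <;> linarith [ht.1, ht.2]
    by_contra hnr
    have := H (cexp (t * I)) (Complex.norm_exp_ofReal_mul_I t) hnr
    have h2 := hball hmem
    simp only [Set.mem_ofPred_eq] at h2
    linarith
  have hinj : Set.InjOn (fun t : ℝ => cexp (t * I)) (Set.Ioo θ (θ + min δ 1)) := by
    intro s hs t ht hst
    simp only [] at hst
    rw [Complex.exp_eq_exp_iff_exists_int] at hst
    obtain ⟨n, hn⟩ := hst
    have hn' : (s : ℂ) * I = ((t + n * (2 * Real.pi) : ℝ) : ℂ) * I := by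
      rw [hn]; push_cast; ring
    have hn2 := mul_right_cancel₀ Complex.I_ne_zero hn'
    have hn3 : s = t + n * (2 * Real.pi) := by exact_mod_cast hn2
    have hlt1 : |s - t| < 1 := by
      have := min_le_right δ 1
      rw [abs_lt]; constructor <;> linarith [hs.1, hs.2, ht.1, ht.2]
    have hn0 : n = 0 := by
      by_contra hne
      have h1 : (1 : ℝ) ≤ |(n : ℝ)| := by
        have := Int.one_le_abs hne
        exact_mod_cast this
      have h2 : |s - t| = |(n : ℝ)| * (2 * Real.pi) := by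
        rw [hn3, add_sub_cancel_left, abs_mul, abs_of_pos Real.two_pi_pos]
      have h3 := Real.pi_gt_three
      nlinarith
    rw [hn0] at hn3
    simpa using hn3
  have hfin : Set.Finite {x | P.IsRoot x} := by
    have := P.roots.toFinset.finite_toSet
    refine this.subset fun x hx => ?_
    simp only [Finset.mem_coe, Multiset.mem_toFinset, mem_roots hP]
    exact hx
  exact hinf (Set.Finite.of_injOn hmaps hinj hfin)

end Pool.Agent.Lib.MP_c7fa02_an
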