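import Mathlib

set_option autoImplicit false

namespace Pool.Agent.Lib.MP_c7fa02_an

open Finset

variable {ι : Type} [Fintype ι] [DecidableEq ι]

/-- Product of half-angle sines. -/
noncomputable def R (t : ι → ℝ) (θ : ℝ) : ℝ := ∏ j, Real.sin ((θ - t j) / 2)

/-- The `j`-th term of the derivative of `R t`. -/
noncomputable def W (t : ι → ℝ) (θ : ℝ) (j : ι) : ℝ :=
  (∏ i ∈ Finset.univ.erase j, Real.sin ((θ - t i) / 2)) * (Real.cos ((θ - t j) / 2) / 2)

omit [DecidableEq ι] in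
lemma continuous_R : Continuous fun p : (ι → ℝ) × ℝ => R p.1 p.2 := by
  unfold R
  fun_prop

lemma continuous_W (j : ι) : Continuous fun p : (ι → ℝ) × ℝ => W p.1 p.2 j := by
  unfold W
  fun_prop

/-- Derivative along a line in `(t, θ)`. -/
lemma hasDerivAt_line (t x : ι → ℝ) (θ y s : ℝ) :
    HasDerivAt (fun s => R (fun j => t j + s * x j) (θ + s * y))
      (∑ j, W (fun j => t j + s * x j) (θ + s * y) j * (y - x j)) s := by
  have h1 : ∀ j ∈ (Finset.univ : Finset ι),
      HasDerivAt (fun s : ℝ => Real.sin ((θ + s * y - (t j + s * x j)) / 2))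
        (Real.cos ((θ + s * y - (t j + s * x j)) / 2) * ((y - x j) / 2)) s := by
    intro j _
    have h0 : HasDerivAt (fun s : ℝ => (θ + s * y - (t j + s * x j)) / 2) ((y - x j) / 2) s := by
      have ha : HasDerivAt (fun s : ℝ => θ + s * y) y s := by
        simpa using ((hasDerivAt_id s).mul_const y).const_add θ
      have hb : HasDerivAt (fun s : ℝ => t j + s * x j) (x j) s := by
        simpa using ((hasDerivAt_id s).mul_const (x j)).const_add (t j)
      exact (ha.sub hb).div_const 2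
    exact h0.sin
  have h2 := HasDerivAt.fun_finsetProd h1
  have h3 : (∑ j, W (fun j => t j + s * x j) (θ + s * y) j * (y - x j))
      = ∑ i, (∏ j ∈ Finset.univ.erase i, Real.sin ((θ + s * y - (t j + s * x j)) / 2)) •
          (Real.cos ((θ + s * y - (t i + s * x i)) / 2) * ((y - x i) / 2)) := by
    refine Finset.sum_congr rfl fun j _ => ?_
    unfold W
    rw [smul_eq_mul]
    ring
  rw [h3]
  exact h2

lemma hasDerivAt_R (t : ι → ℝ) (θ : ℝ) : HasDerivAt (R t) (∑ j, W t θ j) θ := by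
  have h := hasDerivAt_line t (fun _ => 0) 0 1 θ
  simpa using h

lemma R_eq_mul (t : ι → ℝ) (θ : ℝ) (j : ι) :
    (∏ i ∈ Finset.univ.erase j, Real.sin ((θ - t i) / 2)) * Real.sin ((θ - t j) / 2) = R t θ := by
  unfold R
  rw [Finset.prod_erase_mul _ _ (Finset.mem_univ j)]

/-- The algebraic identity behind the flow. -/
lemma flow_identity (t : ι → ℝ) (ξ θ : ℝ) {m : ℕ} (hcard : Fintype.card ι = 2 * m)
    (hne : ∀ j, Real.sin ((ξ - t j) / 2) ≠ 0)
    (hsum : ∑ j, Real.cos ((ξ - t j) / 2) / Real.sin ((ξ - t j) / 2) = 0) :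
    Real.sin ((θ - ξ) / 2) *
      ((∑ j, W t θ j * (0 - Real.cos ((ξ - t j) / 2) / Real.sin ((ξ - t j) / 2))) - m * R t θ)
    = Real.cos ((θ - ξ) / 2) * ∑ j, W t θ j := by
  have hm : (m : ℝ) * R t θ = ∑ _j : ι, R t θ / 2 := by
    rw [Finset.sum_const, Finset.card_univ, hcard, nsmul_eq_mul]
    push_cast; ring
  have key : ∀ j, Real.sin ((θ - ξ) / 2) *
      (W t θ j * (0 - Real.cos ((ξ - t j) / 2) / Real.sin ((ξ - t j) / 2)) - R t θ / 2)
      - Real.cos ((θ - ξ) / 2) * W t θ j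
      = -(Real.cos ((θ - ξ) / 2) * (R t θ / 2)) *
        (Real.cos ((ξ - t j) / 2) / Real.sin ((ξ - t j) / 2)) := by
    intro j
    rw [← R_eq_mul t θ j]
    unfold W
    set Y := ∏ i ∈ Finset.univ.erase j, Real.sin ((θ - t i) / 2) with hY
    have hs := hne j
    set a := (θ - ξ) / 2 with ha
    set b := (ξ - t j) / 2 with hb
    have hab : (θ - t j) / 2 = a + b := by rw [ha, hb]; ring
    rw [hab, Real.cos_add, Real.sin_add]
    field_simp
    ring
  have h0 := Finset.sum_congr (rfl : (Finset.univ : Finset ι) = Finset.univ) fun j _ => key j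
  rw [← Finset.mul_sum, hsum, mul_zero, Finset.sum_sub_distrib, ← Finset.mul_sum,
    Finset.sum_sub_distrib, ← hm, ← Finset.mul_sum] at h0
  linarith

omit [DecidableEq ι] in
lemma R_add_two_pi (t : ι → ℝ) {m : ℕ} (hcard : Fintype.card ι = 2 * m) (θ : ℝ) :
    R t (θ + 2 * Real.pi) = R t θ := by
  unfold R
  have h : ∀ j, Real.sin ((θ + 2 * Real.pi - t j) / 2) = - Real.sin ((θ - t j) / 2) := by
    intro j
    rw [← Real.sin_add_pi]
    congr 1; ring
  simp_rw [h]
  rw [Finset.prod_neg, Finset.card_univ, hcard, pow_mul]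
  simp

omit [DecidableEq ι] in
lemma R_periodic (t : ι → ℝ) {m : ℕ} (hcard : Fintype.card ι = 2 * m) :
    Function.Periodic (R t) (2 * Real.pi) := R_add_two_pi t hcard

/-- The auxiliary function used for the integration by parts. -/
noncomputable def H (t : ι → ℝ) (ξ θ : ℝ) : ℝ :=
  (R t θ - R t ξ) * (Real.cos ((θ - ξ) / 2) / Real.sin ((θ - ξ) / 2))

omit [DecidableEq ι] in
lemma H_self (t : ι → ℝ) (ξ : ℝ) : H t ξ ξ = 0 := by simp [H]

omit [DecidableEq ι] in
lemma H_add_two_pi (t : ι → ℝ) {m : ℕ} (hcard : Fintype.card ι = 2 * m) (ξ θ : ℝ) :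
    H t ξ (θ + 2 * Real.pi) = H t ξ θ := by
  unfold H
  rw [R_add_two_pi t hcard]
  have e : (θ + 2 * Real.pi - ξ) / 2 = (θ - ξ) / 2 + Real.pi := by ring
  rw [e, Real.cos_add_pi, Real.sin_add_pi, neg_div_neg_eq]

lemma continuousAt_H_self (t : ι → ℝ) {ξ : ℝ} (hd : ∑ j, W t ξ j = 0) : ContinuousAt (H t ξ) ξ := by
  rw [continuousAt_iff_punctured_nhds, H_self]
  have h1 : Filter.Tendsto (slope (R t) ξ) (nhdsWithin ξ {ξ}ᶜ) (nhds 0) := by
    have := (hasDerivAt_R t ξ).tendsto_slope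
    rwa [hd] at this
  have h2 : Filter.Tendsto (slope (fun θ => Real.sin ((θ - ξ) / 2)) ξ) (nhdsWithin ξ {ξ}ᶜ)
      (nhds (1 / 2)) := by
    have h0 : HasDerivAt (fun θ : ℝ => Real.sin ((θ - ξ) / 2)) (Real.cos ((ξ - ξ) / 2) * (1 / 2)) ξ := by
      have ha : HasDerivAt (fun θ : ℝ => (θ - ξ) / 2) (1 / 2) ξ :=
        ((hasDerivAt_id ξ).sub_const ξ).div_const 2
      exact ha.sin
    have := h0.tendsto_slope
    simpa using this
  have h3 : Filter.Tendsto (fun θ => Real.cos ((θ - ξ) / 2)) (nhdsWithin ξ {ξ}ᶜ) (nhds 1) := by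
    have hc : Continuous (fun θ : ℝ => Real.cos ((θ - ξ) / 2)) := by fun_prop
    have := hc.tendsto ξ
    simp only [sub_self, zero_div, Real.cos_zero] at this
    exact this.mono_left nhdsWithin_le_nhds
  have h4 := (h1.div h2 (by norm_num)).mul h3
  rw [zero_div, zero_mul] at h4
  refine h4.congr' ?_
  filter_upwards [self_mem_nhdsWithin] with θ hθ
  have hne : θ - ξ ≠ 0 := sub_ne_zero.mpr hθ
  simp only [Pi.div_apply, slope_def_field, sub_self, zero_div, Real.sin_zero, sub_zero, H]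
  by_cases hs : Real.sin ((θ - ξ) / 2) = 0
  · simp [hs]
  · field_simp

/-- The speed of the flow. -/
noncomputable def cotv (t : ι → ℝ) (ξ : ℝ) (j : ι) : ℝ :=
  Real.cos ((ξ - t j) / 2) / Real.sin ((ξ - t j) / 2)

/-- Derivative of `R` along the flow. -/
noncomputable def D (t : ι → ℝ) (ξ θ : ℝ) : ℝ := ∑ j, W t θ j * (0 - cotv t ξ j)

lemma continuous_D (t : ι → ℝ) (ξ : ℝ) : Continuous (D t ξ) := by
  unfold D W
  fun_prop

lemma min_props (t : ι → ℝ) {ξ : ℝ} (hmin : ∀ θ, R t ξ ≤ R t θ) (hneg : R t ξ < 0) :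
    (∑ j, W t ξ j = 0) ∧ (∀ j, Real.sin ((ξ - t j) / 2) ≠ 0) ∧ (∑ j, cotv t ξ j = 0) := by
  have h1 : ∑ j, W t ξ j = 0 := by
    have hl : IsLocalMin (R t) ξ := Filter.Eventually.of_forall hmin
    exact hl.hasDerivAt_eq_zero (hasDerivAt_R t ξ)
  have h2 : ∀ j, Real.sin ((ξ - t j) / 2) ≠ 0 := by
    intro j hj
    have : R t ξ = 0 := by
      unfold R
      exact Finset.prod_eq_zero (Finset.mem_univ j) hj
    rw [this] at hneg
    exact lt_irrefl _ hneg
  refine ⟨h1, h2, ?_⟩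
  have h3 : ∀ j, W t ξ j = R t ξ / 2 * cotv t ξ j := by
    intro j
    rw [← R_eq_mul t ξ j]
    unfold W cotv
    have := h2 j
    field_simp
  simp_rw [h3] at h1
  rw [← Finset.mul_sum] at h1
  rcases mul_eq_zero.mp h1 with h | h
  · exfalso; linarith
  · exact h

/-- Integral inequality along the flow. -/
lemma int_ineq (t : ι → ℝ) {m : ℕ} (hcard : Fintype.card ι = 2 * m) {ξ : ℝ}
    (hmin : ∀ θ, R t ξ ≤ R t θ) (hneg : R t ξ < 0) :
    0 ≤ ∫ θ in ξ..(ξ + 2 * Real.pi), (D t ξ θ - m * R t θ - (R t θ - R t ξ) / 2) := by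
  obtain ⟨hd, hne, hsum⟩ := min_props t hmin hneg
  have hsin : ∀ θ ∈ Set.Ioo ξ (ξ + 2 * Real.pi), 0 < Real.sin ((θ - ξ) / 2) := by
    intro θ hθ
    apply Real.sin_pos_of_pos_of_lt_pi
    · linarith [hθ.1]
    · linarith [hθ.2]
  have hderiv : ∀ θ ∈ Set.Ioo ξ (ξ + 2 * Real.pi), HasDerivAt (H t ξ)
      ((∑ j, W t θ j) * (Real.cos ((θ - ξ) / 2) / Real.sin ((θ - ξ) / 2))
        + (R t θ - R t ξ) * (-(1 / 2) / Real.sin ((θ - ξ) / 2) ^ 2)) θ := by
    intro θ hθ
    have hs := hsin θ hθ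
    have ha : HasDerivAt (fun θ : ℝ => (θ - ξ) / 2) (1 / 2) θ :=
      ((hasDerivAt_id θ).sub_const ξ).div_const 2
    have hb : HasDerivAt (fun θ : ℝ => R t θ - R t ξ) (∑ j, W t θ j) θ :=
      (hasDerivAt_R t θ).sub_const _
    have hc := (ha.cos).div (ha.sin) hs.ne'
    have hfin := hb.mul hc
    have e : (-(1 / 2) / Real.sin ((θ - ξ) / 2) ^ 2)
        = ((-Real.sin ((θ - ξ) / 2) * (1 / 2)) * Real.sin ((θ - ξ) / 2)
          - Real.cos ((θ - ξ) / 2) * (Real.cos ((θ - ξ) / 2) * (1 / 2)))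
          / Real.sin ((θ - ξ) / 2) ^ 2 := by
      congr 1
      have := Real.sin_sq_add_cos_sq ((θ - ξ) / 2)
      nlinarith
    rw [e]
    exact hfin
  have hcont : ContinuousOn (H t ξ) (Set.Icc ξ (ξ + 2 * Real.pi)) := by
    intro θ hθ
    apply ContinuousAt.continuousWithinAt
    rcases eq_or_lt_of_le hθ.1 with h | h
    · rw [← h]; exact continuousAt_H_self t hd
    · rcases eq_or_lt_of_le hθ.2 with h' | h'
      · rw [h']
        have h1 := continuousAt_H_self t hd
        have h2 : ContinuousAt (fun θ => H t ξ (θ - 2 * Real.pi)) (ξ + 2 * Real.pi) := by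
          apply ContinuousAt.comp (g := H t ξ) (f := fun θ => θ - 2 * Real.pi)
          · simpa using h1
          · fun_prop
        have h3 : (fun θ => H t ξ (θ - 2 * Real.pi)) = H t ξ := by
          funext θ
          rw [← H_add_two_pi t hcard ξ (θ - 2 * Real.pi), sub_add_cancel]
        rwa [h3] at h2
      · exact (hderiv θ ⟨h, h'⟩).continuousAt
  have hcφ : Continuous (fun θ => D t ξ θ - m * R t θ - (R t θ - R t ξ) / 2) := by
    have h1 := continuous_D t ξ
    have h2 : Continuous (R t) := by unfold R; fun_prop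
    fun_prop
  have hmain := intervalIntegral.sub_le_integral_of_hasDeriv_right_of_le
    (a := ξ) (b := ξ + 2 * Real.pi) (by linarith [Real.pi_pos]) hcont
    (fun θ hθ => (hderiv θ hθ).hasDerivWithinAt)
    (hcφ.continuousOn.integrableOn_Icc)
    (by
      intro θ hθ
      have hs := hsin θ hθ
      have hid := flow_identity t ξ θ hcard hne hsum
      have e1 : (∑ j, W t θ j) * (Real.cos ((θ - ξ) / 2) / Real.sin ((θ - ξ) / 2))
          = D t ξ θ - m * R t θ := by
        rw [mul_div_assoc', div_eq_iff hs.ne', mul_comm (∑ j, W t θ j)]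
        rw [← hid]
        unfold D cotv
        ring
      have e2 : (R t θ - R t ξ) * (-(1 / 2) / Real.sin ((θ - ξ) / 2) ^ 2)
          ≤ -((R t θ - R t ξ) / 2) := by
        have h1 : 0 ≤ R t θ - R t ξ := by linarith [hmin θ]
        have h2 : Real.sin ((θ - ξ) / 2) ^ 2 ≤ 1 := Real.sin_sq_le_one _
        have h3 : -(1 / 2) / Real.sin ((θ - ξ) / 2) ^ 2 ≤ -(1 / 2 : ℝ) := by
          rw [div_le_iff₀ (by positivity)]
          nlinarith
        calc (R t θ - R t ξ) * (-(1 / 2) / Real.sin ((θ - ξ) / 2) ^ 2)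
            ≤ (R t θ - R t ξ) * (-(1 / 2 : ℝ)) := mul_le_mul_of_nonneg_left h3 h1
          _ = _ := by ring
      show (∑ j, W t θ j) * (Real.cos ((θ - ξ) / 2) / Real.sin ((θ - ξ) / 2))
        + (R t θ - R t ξ) * (-(1 / 2) / Real.sin ((θ - ξ) / 2) ^ 2) ≤ _
      rw [e1]
      linarith)
  have hH := H_add_two_pi t hcard ξ ξ
  rw [hH, sub_self] at hmain
  exact hmain

end Pool.Agent.Lib.MP_c7fa02_an
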