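import Pool.Agent.Lib.MP_c7fa02_an.Basic

set_option autoImplicit false

namespace Pool.Agent.Lib.MP_c7fa02_an

open Polynomial Complex ComplexConjugate Real Metric

lemma circleAverage_pow (k : ℕ) (r : ℝ) :
    circleAverage (fun z : ℂ => z ^ k) 0 r = if k = 0 then 1 else 0 := by
  have h : DiffContOnCl ℂ (fun z : ℂ => z ^ k) (ball 0 |r|) :=
    (differentiable_pow k).diffContOnCl
  rw [h.circleAverage]
  by_cases hk : k = 0
  · simp [hk]
  · simp [hk]

lemma circleAverage_conj (f : ℂ → ℂ) (hf : Continuous f) (r : ℝ) :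
    circleAverage (fun z : ℂ => conj (f z)) 0 r = conj (circleAverage f 0 r) := by
  have hci : CircleIntegrable f 0 r := hf.continuousOn.circleIntegrable'
  have := (Complex.conjCLE : ℂ ≃L[ℝ] ℂ).toContinuousLinearMap.circleAverage_comp_comm hci
  simpa [Function.comp_def] using this

lemma circleAverage_conj_pow_mul_pow (m k : ℕ) (r : ℝ) :
    circleAverage (fun z : ℂ => conj z ^ m * z ^ k) 0 r = if k = m then (r : ℂ) ^ (2 * m) else 0 := by
  rcases le_or_gt m k with h | h
  · have hcongr : circleAverage (fun z : ℂ => conj z ^ m * z ^ k) 0 r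
        = circleAverage (fun z : ℂ => ((r : ℂ) ^ (2 * m)) • z ^ (k - m)) 0 r := by
      apply circleAverage_congr_sphere
      intro z hz
      rw [mem_sphere_zero_iff_norm] at hz
      have h1 : conj z * z = (r : ℂ) ^ 2 := by
        rw [mul_comm, Complex.mul_conj, Complex.normSq_eq_norm_sq, hz, sq_abs]; push_cast; rfl
      simp only [smul_eq_mul]
      calc conj z ^ m * z ^ k = (conj z * z) ^ m * z ^ (k - m) := by
            rw [mul_pow, mul_assoc, ← pow_add]; congr 2; omega
        _ = _ := by rw [h1, ← pow_mul]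
    rw [hcongr, circleAverage_fun_smul, circleAverage_pow]
    by_cases hk : k = m
    · subst hk; simp
    · rw [if_neg (by omega), if_neg hk]; simp
  · have hcongr : circleAverage (fun z : ℂ => conj z ^ m * z ^ k) 0 r
        = circleAverage (fun z : ℂ => ((r : ℂ) ^ (2 * k)) • conj (z ^ (m - k))) 0 r := by
      apply circleAverage_congr_sphere
      intro z hz
      rw [mem_sphere_zero_iff_norm] at hz
      have h1 : conj z * z = (r : ℂ) ^ 2 := by
        rw [mul_comm, Complex.mul_conj, Complex.normSq_eq_norm_sq, hz, sq_abs]; push_cast; rfl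
      simp only [smul_eq_mul, map_pow]
      calc conj z ^ m * z ^ k = (conj z * z) ^ k * conj z ^ (m - k) := by
            rw [mul_pow, mul_right_comm, ← pow_add]; congr 2; omega
        _ = _ := by rw [h1, ← pow_mul]
    rw [hcongr, circleAverage_fun_smul, circleAverage_conj _ (continuous_pow _), circleAverage_pow]
    rw [if_neg (by omega), if_neg (by omega)]; simp

lemma circleAverage_conj_pow_mul_eval (P : ℂ[X]) (m : ℕ) (r : ℝ) :
    circleAverage (fun z : ℂ => conj z ^ m * P.eval z) 0 r = P.coeff m * (r : ℂ) ^ (2 * m) := by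
  have h1 : (fun z : ℂ => conj z ^ m * P.eval z)
      = fun z : ℂ => ∑ k ∈ Finset.range (P.natDegree + 1), (P.coeff k) • (conj z ^ m * z ^ k) := by
    funext z
    rw [eval_eq_sum_range, Finset.mul_sum]
    refine Finset.sum_congr rfl fun k _ => ?_
    rw [smul_eq_mul]; ring
  rw [h1, circleAverage_fun_sum]
  · have h2 : ∀ k ∈ Finset.range (P.natDegree + 1),
        circleAverage (fun z : ℂ => (P.coeff k) • (conj z ^ m * z ^ k)) 0 r
          = if k = m then P.coeff m * (r : ℂ) ^ (2 * m) else 0 := by
      intro k _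
      rw [circleAverage_fun_smul, circleAverage_conj_pow_mul_pow]
      by_cases hk : k = m
      · subst hk; simp
      · simp [hk]
    rw [Finset.sum_congr rfl h2, Finset.sum_ite_eq']
    by_cases hm : m ∈ Finset.range (P.natDegree + 1)
    · rw [if_pos hm]
    · rw [if_neg hm]
      rw [Finset.mem_range, not_lt] at hm
      rw [coeff_eq_zero_of_natDegree_lt (by omega), zero_mul]
  · intro k _
    have hc : Continuous (fun z : ℂ => (P.coeff k) • (conj z ^ m * z ^ k)) := by
      simp only [smul_eq_mul]
      exact continuous_const.mul ((Complex.continuous_conj.pow m).mul (continuous_pow k))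
    exact hc.continuousOn.circleIntegrable'

lemma norm_circleAverage_le (f : ℂ → ℂ) (r : ℝ) :
    ‖circleAverage f 0 r‖ ≤ circleAverage (fun z => ‖f z‖) 0 r := by
  rw [circleAverage, circleAverage, norm_smul, smul_eq_mul, Real.norm_eq_abs,
    abs_of_pos (inv_pos.mpr Real.two_pi_pos)]
  apply mul_le_mul_of_nonneg_left _ (inv_pos.mpr Real.two_pi_pos).le
  exact intervalIntegral.norm_integral_le_integral_norm Real.two_pi_pos.le

/-- Coefficient bound by the mean of the modulus on the circle of radius `r`. -/
lemma norm_coeff_mul_pow_le (P : ℂ[X]) (m : ℕ) {r : ℝ} (hr : 0 < r) :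
    ‖P.coeff m‖ * r ^ m ≤ circleAverage (fun z => ‖P.eval z‖) 0 r := by
  have h1 := norm_circleAverage_le (fun z : ℂ => conj z ^ m * P.eval z) r
  rw [circleAverage_conj_pow_mul_eval] at h1
  have h2 : circleAverage (fun z : ℂ => ‖conj z ^ m * P.eval z‖) 0 r
      = r ^ m * circleAverage (fun z => ‖P.eval z‖) 0 r := by
    rw [← smul_eq_mul, ← circleAverage_fun_smul]
    apply circleAverage_congr_sphere
    intro z hz
    rw [mem_sphere_zero_iff_norm, abs_of_pos hr] at hz
    simp only [smul_eq_mul]
    rw [norm_mul, norm_pow, RCLike.norm_conj, hz]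
  rw [h2, norm_mul, norm_pow, Complex.norm_real, Real.norm_eq_abs, abs_of_pos hr, two_mul,
    pow_add] at h1
  have hrm : 0 < r ^ m := pow_pos hr m
  have h3 : r ^ m * (‖P.coeff m‖ * r ^ m) ≤ r ^ m * circleAverage (fun z => ‖P.eval z‖) 0 r := by
    linarith
  exact le_of_mul_le_mul_left h3 hrm

/-- If `‖P(z)‖ ≤ K (1 + Re B(z))` in the open disc with `B` analytic and `B 0 = 0`,
then every coefficient of `P` is at most `K` in modulus. -/
theorem norm_coeff_le_of_le_one_add_re {P : ℂ[X]} {B : ℂ → ℂ} {K : ℝ}
    (hB : DifferentiableOn ℂ B (ball 0 1)) (hB0 : B 0 = 0)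
    (h : ∀ z : ℂ, ‖z‖ < 1 → ‖P.eval z‖ ≤ K * (1 + (B z).re)) (m : ℕ) :
    ‖P.coeff m‖ ≤ K := by
  have key : ∀ r : ℝ, 0 < r → r < 1 → ‖P.coeff m‖ * r ^ m ≤ K := by
    intro r hr0 hr1
    have hsub : closedBall (0 : ℂ) |r| ⊆ ball 0 1 := by
      rw [abs_of_pos hr0]; exact closedBall_subset_ball hr1
    have hdc : DiffContOnCl ℂ B (ball 0 |r|) := hB.diffContOnCl_ball hsub
    have hcont : ContinuousOn B (sphere 0 |r|) :=
      hB.continuousOn.mono (sphere_subset_closedBall.trans hsub)
    have hBint : CircleIntegrable B 0 r := hcont.circleIntegrable'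
    have hre : circleAverage (fun z => (B z).re) 0 r = 0 := by
      have := Complex.reCLM.circleAverage_comp_comm hBint
      rw [hdc.circleAverage, hB0] at this
      simpa [Function.comp_def] using this
    have hreint : CircleIntegrable (fun z => (B z).re) 0 r :=
      (Complex.continuous_re.comp_continuousOn hcont).circleIntegrable'
    have h1 := norm_coeff_mul_pow_le P m hr0
    have h2 : circleAverage (fun z => ‖P.eval z‖) 0 r
        ≤ circleAverage (fun z => K * (1 + (B z).re)) 0 r := by
      apply circleAverage_mono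
      · exact (P.continuous.norm).continuousOn.circleIntegrable'
      · apply ContinuousOn.circleIntegrable'
        exact continuousOn_const.mul
          (continuousOn_const.add (Complex.continuous_re.comp_continuousOn hcont))
      · intro z hz
        rw [mem_sphere_zero_iff_norm, abs_of_pos hr0] at hz
        exact h z (by rw [hz]; exact hr1)
    have h3 : circleAverage (fun z => K * (1 + (B z).re)) 0 r = K := by
      have : (fun z => K * (1 + (B z).re)) = fun z => K • ((fun _ => (1 : ℝ)) z + (B z).re) := by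
        funext z; simp [smul_eq_mul]
      rw [this, circleAverage_fun_smul, circleAverage_fun_add (circleIntegrable_const _ _ _) hreint,
        circleAverage_const, hre]
      simp
    linarith
  have hlim : Filter.Tendsto (fun r : ℝ => ‖P.coeff m‖ * r ^ m) (nhdsWithin 1 (Set.Iio 1))
      (nhds (‖P.coeff m‖ * 1 ^ m)) := by
    apply Filter.Tendsto.mono_left _ nhdsWithin_le_nhds
    exact (continuous_const.mul (continuous_pow m)).tendsto 1
  rw [one_pow, mul_one] at hlim
  refine le_of_tendsto hlim ?_
  have : Set.Ioo (0 : ℝ) 1 ∈ nhdsWithin (1 : ℝ) (Set.Iio 1) := Ioo_mem_nhdsLT (by norm_num)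
  filter_upwards [this] with r hr
  exact key r hr.1 hr.2

end Pool.Agent.Lib.MP_c7fa02_an
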