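import Pool.Agent.Lib.MP_c7fa02_an.TrigPoly

set_option autoImplicit false

namespace Pool.Agent.Lib.MP_c7fa02_an

open Filter Topology

variable {ι : Type} [Fintype ι]

/-- Maximum of `R t` over a period. -/
noncomputable def Sm (t : ι → ℝ) : ℝ := sSup (R t '' Set.Icc 0 (2 * Real.pi))

lemma continuous_R_right (t : ι → ℝ) : Continuous (R t) := by unfold R; fun_prop

lemma continuous_Sm : Continuous (Sm : (ι → ℝ) → ℝ) := by
  have h := IsCompact.continuous_sSup (f := fun (t : ι → ℝ) (θ : ℝ) => R t θ)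
    (isCompact_Icc (a := (0 : ℝ)) (b := 2 * Real.pi)) continuous_R
  exact h

lemma exists_eq_Sm (t : ι → ℝ) : ∃ θ ∈ Set.Icc (0 : ℝ) (2 * Real.pi), R t θ = Sm t := by
  have hne : (Set.Icc (0 : ℝ) (2 * Real.pi)).Nonempty := ⟨0, by simp [Real.pi_pos.le]⟩
  obtain ⟨θ, h1, h2⟩ := isCompact_Icc.exists_sSup_image_eq hne (continuous_R_right t).continuousOn
  exact ⟨θ, h1, h2.symm⟩

lemma exists_rep (θ : ℝ) : ∃ θ' ∈ Set.Icc (0 : ℝ) (2 * Real.pi), ∀ f : ℝ → ℝ,
    Function.Periodic f (2 * Real.pi) → f θ = f θ' := by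
  have hpi : (0 : ℝ) < 2 * Real.pi := by positivity
  refine ⟨toIcoMod hpi 0 θ, ?_, ?_⟩
  · have h := toIcoMod_mem_Ico hpi 0 θ
    rw [zero_add] at h
    exact ⟨h.1, h.2.le⟩
  · intro f hf
    rw [← self_sub_toIcoDiv_zsmul hpi 0 θ]
    exact (hf.sub_zsmul_eq _).symm

lemma le_Sm (t : ι → ℝ) {m : ℕ} (hcard : Fintype.card ι = 2 * m) (θ : ℝ) : R t θ ≤ Sm t := by
  obtain ⟨θ', h1, h2⟩ := exists_rep θ
  rw [h2 _ (R_periodic t hcard)]
  exact le_csSup (isCompact_Icc.image (continuous_R_right t)).bddAbove ⟨θ', h1, rfl⟩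

/-- The functional to be maximised. -/
noncomputable def G (t : ι → ℝ) : ℝ :=
  (∫ θ in (0 : ℝ)..(2 * Real.pi), R t θ) - Real.pi * Sm t

lemma continuous_G : Continuous (G : (ι → ℝ) → ℝ) := by
  unfold G
  refine Continuous.sub ?_ (continuous_const.mul continuous_Sm)
  exact intervalIntegral.continuous_parametric_intervalIntegral_of_continuous'
    (f := fun (t : ι → ℝ) (θ : ℝ) => R t θ) continuous_R 0 (2 * Real.pi)

/-- Reduction of the angles modulo `4π`. -/
noncomputable def red (t : ι → ℝ) (j : ι) : ℝ :=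
  t j - 2 * ((⌊t j / (4 * Real.pi)⌋ : ℝ) * (2 * Real.pi))

lemma R_red (t : ι → ℝ) : R (red t) = R t := by
  funext θ
  unfold R red
  refine Finset.prod_congr rfl fun j _ => ?_
  have : (θ - (t j - 2 * ((⌊t j / (4 * Real.pi)⌋ : ℝ) * (2 * Real.pi)))) / 2
      = (θ - t j) / 2 + (⌊t j / (4 * Real.pi)⌋ : ℝ) * (2 * Real.pi) := by ring
  rw [this, Real.sin_add_int_mul_two_pi]

omit [Fintype ι] in
lemma red_mem (t : ι → ℝ) : red t ∈ Set.pi Set.univ fun _ : ι => Set.Icc (0 : ℝ) (4 * Real.pi) := by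
  intro j _
  have hpi : (0 : ℝ) < 4 * Real.pi := by positivity
  have h1 := Int.floor_le (t j / (4 * Real.pi))
  have h2 := Int.lt_floor_add_one (t j / (4 * Real.pi))
  rw [le_div_iff₀ hpi] at h1
  rw [div_lt_iff₀ hpi] at h2
  unfold red
  constructor
  · linarith
  · linarith

lemma G_red (t : ι → ℝ) : G (red t) = G t := by
  unfold G Sm
  rw [R_red]

lemma exists_max_G : ∃ t₀ : ι → ℝ, ∀ t : ι → ℝ, G t ≤ G t₀ := by
  have hK : IsCompact (Set.pi Set.univ fun _ : ι => Set.Icc (0 : ℝ) (4 * Real.pi)) :=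
    isCompact_univ_pi fun _ => isCompact_Icc
  obtain ⟨t₀, _, h⟩ := hK.exists_isMaxOn ⟨red (fun _ => 0), red_mem _⟩
    (continuous_G (ι := ι)).continuousOn
  refine ⟨t₀, fun t => ?_⟩
  rw [← G_red t]
  exact h (red_mem t)

variable [DecidableEq ι]

lemma W_add_two_pi (t : ι → ℝ) {m : ℕ} (hcard : Fintype.card ι = 2 * m) (θ : ℝ) (j : ι) :
    W t (θ + 2 * Real.pi) j = W t θ j := by
  unfold W
  have h : ∀ j, (θ + 2 * Real.pi - t j) / 2 = (θ - t j) / 2 + Real.pi := by
    intro j; ring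
  simp_rw [h, Real.sin_add_pi, Real.cos_add_pi]
  rw [Finset.prod_neg, Finset.card_erase_of_mem (Finset.mem_univ j), Finset.card_univ, hcard]
  have hpos : 0 < Fintype.card ι := Fintype.card_pos_iff.mpr ⟨j⟩
  obtain ⟨k, hk⟩ : ∃ k, m = k + 1 := ⟨m - 1, by omega⟩
  have e : 2 * m - 1 = 2 * k + 1 := by omega
  rw [e, pow_succ, pow_mul]
  ring

lemma D_periodic (t : ι → ℝ) {m : ℕ} (hcard : Fintype.card ι = 2 * m) (ξ : ℝ) :
    Function.Periodic (D t ξ) (2 * Real.pi) := by
  intro θ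
  unfold D
  simp_rw [W_add_two_pi t hcard]

/-- A difference quotient, continuous up to `ε = 0`. -/
noncomputable def q (t : ι → ℝ) (ξ ε θ : ℝ) : ℝ :=
  ∫ s in (0 : ℝ)..1, ∑ j, W (fun j => t j + (ε * s) * cotv t ξ j) θ j * (0 - cotv t ξ j)

lemma continuous_q (t : ι → ℝ) (ξ : ℝ) : Continuous fun p : ℝ × ℝ => q t ξ p.1 p.2 := by
  unfold q
  apply intervalIntegral.continuous_parametric_intervalIntegral_of_continuous'
  unfold W Function.uncurry
  fun_prop

lemma q_zero (t : ι → ℝ) (ξ θ : ℝ) : q t ξ 0 θ = D t ξ θ := by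
  unfold q D
  simp

lemma mul_q (t : ι → ℝ) (ξ ε θ : ℝ) :
    ε * q t ξ ε θ = R (fun j => t j + ε * cotv t ξ j) θ - R t θ := by
  unfold q
  rw [← intervalIntegral.integral_const_mul]
  have h : ∀ s ∈ Set.uIcc (0 : ℝ) 1, HasDerivAt
      (fun s => R (fun j => t j + (ε * s) * cotv t ξ j) θ)
      (ε * ∑ j, W (fun j => t j + (ε * s) * cotv t ξ j) θ j * (0 - cotv t ξ j)) s := by
    intro s _
    have h1 := hasDerivAt_line t (cotv t ξ) θ 0 (ε * s)
    have h2 : HasDerivAt (fun s : ℝ => ε * s) ε s := by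
      simpa using (hasDerivAt_id s).const_mul ε
    have h3 := HasDerivAt.comp s h1 h2
    simp only [mul_zero, add_zero] at h3
    rw [mul_comm] at h3
    exact h3
  have hc : Continuous fun s : ℝ =>
      ε * ∑ j, W (fun j => t j + (ε * s) * cotv t ξ j) θ j * (0 - cotv t ξ j) := by
    unfold W
    fun_prop
  rw [intervalIntegral.integral_eq_sub_of_hasDerivAt h (hc.intervalIntegrable 0 1)]
  simp

omit [DecidableEq ι] in
lemma continuous_R_line (t x : ι → ℝ) :
    Continuous fun p : ℝ × ℝ => R (fun j => t j + p.1 * x j) p.2 := by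
  unfold R; fun_prop

omit [DecidableEq ι] in
lemma continuous_Sm_line (t x : ι → ℝ) :
    Continuous fun ε : ℝ => Sm (fun j => t j + ε * x j) := by
  have h : Continuous fun ε : ℝ => (fun j => t j + ε * x j) := by fun_prop
  exact continuous_Sm.comp h

omit [DecidableEq ι] in
/-- Limit points of maximum points are maximum points. -/
lemma limit_max (t x : ι → ℝ) {ε θ : ℕ → ℝ} {θ₀ : ℝ} (hε : Tendsto ε atTop (𝓝 0))
    (hθ : Tendsto θ atTop (𝓝 θ₀))
    (h : ∀ n, R (fun j => t j + ε n * x j) (θ n) = Sm (fun j => t j + ε n * x j)) :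
    R t θ₀ = Sm t := by
  have h1 : Tendsto (fun n : ℕ => R (fun j => t j + ε n * x j) (θ n)) atTop
      (𝓝 (R (fun j => t j + 0 * x j) θ₀)) := by
    have hc := (continuous_R_line t x).tendsto (0, θ₀)
    have hp : Tendsto (fun n => (ε n, θ n)) atTop (𝓝 ((0 : ℝ), θ₀)) := hε.prodMk_nhds hθ
    have := hc.comp hp
    simpa only [Function.comp_def] using this
  have h2 : Tendsto (fun n : ℕ => Sm (fun j => t j + ε n * x j)) atTop
      (𝓝 (Sm (fun j => t j + 0 * x j))) := by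
    have hc := (continuous_Sm_line t x).tendsto 0
    have := hc.comp hε
    simpa only [Function.comp_def] using this
  simp only [zero_mul, add_zero] at h1 h2
  refine tendsto_nhds_unique h1 (h2.congr fun n => (h n).symm)

lemma limit_q (t : ι → ℝ) (ξ : ℝ) {ε θ : ℕ → ℝ} {θ₀ : ℝ} (hε : Tendsto ε atTop (𝓝 0))
    (hθ : Tendsto θ atTop (𝓝 θ₀))
    (h : ∀ n, ∫ θ in (0 : ℝ)..(2 * Real.pi), q t ξ (ε n) θ ≤ Real.pi * q t ξ (ε n) (θ n)) :
    ∫ θ in (0 : ℝ)..(2 * Real.pi), D t ξ θ ≤ Real.pi * D t ξ θ₀ := by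
  have hc1 : Continuous fun ε : ℝ => ∫ θ in (0 : ℝ)..(2 * Real.pi), q t ξ ε θ := by
    apply intervalIntegral.continuous_parametric_intervalIntegral_of_continuous'
    exact continuous_q t ξ
  have h1 : Tendsto (fun n : ℕ => ∫ θ in (0 : ℝ)..(2 * Real.pi), q t ξ (ε n) θ)
      atTop (𝓝 (∫ θ in (0 : ℝ)..(2 * Real.pi), q t ξ 0 θ)) := by
    have := (hc1.tendsto 0).comp hε
    simpa only [Function.comp_def] using this
  have h2 : Tendsto (fun n : ℕ => Real.pi * q t ξ (ε n) (θ n)) atTop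
      (𝓝 (Real.pi * q t ξ 0 θ₀)) := by
    have hc := (continuous_q t ξ).tendsto (0, θ₀)
    have hp : Tendsto (fun n => (ε n, θ n)) atTop (𝓝 ((0 : ℝ), θ₀)) := hε.prodMk_nhds hθ
    have := (hc.comp hp).const_mul Real.pi
    simpa only [Function.comp_def] using this
  have := le_of_tendsto_of_tendsto' h1 h2 h
  simpa only [q_zero] using this

/-- The maximum of the functional cannot be positive. -/
lemma no_pos_max (t : ι → ℝ) {m : ℕ} (hm : 0 < m) (hcard : Fintype.card ι = 2 * m)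
    (hmax : ∀ t' : ι → ℝ, G t' ≤ G t) : G t ≤ 0 := by
  by_contra hpos
  rw [not_le] at hpos
  have hpi := Real.pi_pos
  have hI : Real.pi * Sm t < ∫ θ in (0 : ℝ)..(2 * Real.pi), R t θ := by
    unfold G at hpos; linarith
  have hS0 : 0 ≤ Sm t := by
    have : 0 < Fintype.card ι := by omega
    obtain ⟨j⟩ := Fintype.card_pos_iff.mp this
    have h0 : R t (t j) = 0 := by
      unfold R
      exact Finset.prod_eq_zero (Finset.mem_univ j) (by simp)
    rw [← h0]
    exact le_Sm t hcard _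
  by_cases hnn : ∀ θ, 0 ≤ R t θ
  · have := nonneg_integral t hm hcard hnn (le_Sm t hcard)
    linarith
  push Not at hnn
  obtain ⟨θ₁, hθ₁⟩ := hnn
  -- a minimum point
  obtain ⟨ξ, hξ, hξmin⟩ : ∃ ξ ∈ Set.Icc (0 : ℝ) (2 * Real.pi), ∀ θ, R t ξ ≤ R t θ := by
    obtain ⟨ξ, h1, h2⟩ := isCompact_Icc.exists_isMinOn
      (⟨0, by simp [hpi.le]⟩ : (Set.Icc (0 : ℝ) (2 * Real.pi)).Nonempty)
      (continuous_R_right t).continuousOn
    refine ⟨ξ, h1, fun θ => ?_⟩
    obtain ⟨θ', h3, h4⟩ := exists_rep θ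
    rw [h4 _ (R_periodic t hcard)]
    exact h2 h3
  have hneg : R t ξ < 0 := (hξmin θ₁).trans_lt hθ₁
  obtain ⟨hd, hne, hsum⟩ := min_props t hξmin hneg
  -- the sequence
  have hseq : ∀ n : ℕ, ∃ θ ∈ Set.Icc (0 : ℝ) (2 * Real.pi),
      R (fun j => t j + (1 / ((n : ℝ) + 1)) * cotv t ξ j) θ
        = Sm (fun j => t j + (1 / ((n : ℝ) + 1)) * cotv t ξ j) := fun n => exists_eq_Sm _
  choose θn hθn1 hθn2 using hseq
  obtain ⟨θ₀, hθ₀, φ, hφ, hlim⟩ := isCompact_Icc.tendsto_subseq hθn1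
  have hε : Tendsto (fun n : ℕ => 1 / ((φ n : ℝ) + 1)) atTop (𝓝 0) :=
    tendsto_one_div_add_atTop_nhds_zero_nat.comp hφ.tendsto_atTop
  have hR0 : R t θ₀ = Sm t := limit_max t (cotv t ξ) hε hlim fun n => hθn2 (φ n)
  -- key inequality along the sequence
  have hkey : ∀ n : ℕ, ∫ θ in (0 : ℝ)..(2 * Real.pi), q t ξ (1 / ((n : ℝ) + 1)) θ
      ≤ Real.pi * q t ξ (1 / ((n : ℝ) + 1)) (θn n) := by
    intro n
    have hR := hθn2 n
    have hεpos : (0 : ℝ) < 1 / ((n : ℝ) + 1) := by positivity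
    generalize (1 / ((n : ℝ) + 1) : ℝ) = ε at hR hεpos ⊢
    have h1 := hmax (fun j => t j + ε * cotv t ξ j)
    unfold G at h1
    have h2 : ∫ θ in (0 : ℝ)..(2 * Real.pi), (R (fun j => t j + ε * cotv t ξ j) θ - R t θ)
        = ε * ∫ θ in (0 : ℝ)..(2 * Real.pi), q t ξ ε θ := by
      rw [← intervalIntegral.integral_const_mul]
      refine intervalIntegral.integral_congr fun θ _ => ?_
      exact (mul_q t ξ ε θ).symm
    rw [intervalIntegral.integral_sub ((continuous_R_right _).intervalIntegrable _ _)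
      ((continuous_R_right _).intervalIntegrable _ _)] at h2
    have h3 : ε * q t ξ ε (θn n) = Sm (fun j => t j + ε * cotv t ξ j) - R t (θn n) := by
      rw [mul_q, hR]
    have h4 := le_Sm t hcard (θn n)
    have h5 : ε * ∫ θ in (0 : ℝ)..(2 * Real.pi), q t ξ ε θ
        ≤ ε * (Real.pi * q t ξ ε (θn n)) := by
      rw [← h2]
      have h6 : ε * (Real.pi * q t ξ ε (θn n))
          = Real.pi * (Sm (fun j => t j + ε * cotv t ξ j) - R t (θn n)) := by
        rw [← h3]; ring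
      rw [h6]
      have h7 := mul_le_mul_of_nonneg_left h4 hpi.le
      linarith
    exact le_of_mul_le_mul_left h5 hεpos
  -- pass to the limit
  have hlimit := limit_q t ξ hε hlim fun n => hkey (φ n)
  -- value of `D` at the limit point
  have hD0 : D t ξ θ₀ = m * Sm t := by
    have hd0 : ∑ j, W t θ₀ j = 0 := by
      have hl : IsLocalMax (R t) θ₀ := Filter.Eventually.of_forall fun θ => by
        rw [hR0]; exact le_Sm t hcard θ
      exact hl.hasDerivAt_eq_zero (hasDerivAt_R t θ₀)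
    have hs : Real.sin ((θ₀ - ξ) / 2) ≠ 0 := by
      intro hs
      rw [Real.sin_eq_zero_iff] at hs
      obtain ⟨k, hk⟩ := hs
      have h1 : θ₀ = ξ + k * (2 * Real.pi) := by linarith
      have h2 : R t θ₀ = R t ξ := by
        rw [h1]
        exact (R_periodic t hcard).int_mul k ξ
      rw [hR0] at h2
      linarith
    have hid := flow_identity t ξ θ₀ hcard hne hsum
    rw [hd0, mul_zero] at hid
    have h3 := (mul_eq_zero.mp hid).resolve_left hs
    have h4 : D t ξ θ₀ = m * R t θ₀ := by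
      have : D t ξ θ₀ - m * R t θ₀ = 0 := h3
      linarith
    rw [h4, hR0]
  rw [hD0] at hlimit
  -- the integral inequality
  have hint := int_ineq t hcard hξmin hneg
  have hper : Function.Periodic (fun θ => D t ξ θ - m * R t θ - (R t θ - R t ξ) / 2)
      (2 * Real.pi) := by
    intro θ
    simp only [D_periodic t hcard ξ θ, R_periodic t hcard θ]
  rw [hper.intervalIntegral_add_eq ξ 0, zero_add] at hint
  have hcD := continuous_D t ξ
  have hcR := continuous_R_right t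
  have hsplit : ∫ θ in (0 : ℝ)..(2 * Real.pi), (D t ξ θ - m * R t θ - (R t θ - R t ξ) / 2)
      = (∫ θ in (0 : ℝ)..(2 * Real.pi), D t ξ θ)
        - m * (∫ θ in (0 : ℝ)..(2 * Real.pi), R t θ)
        - ((∫ θ in (0 : ℝ)..(2 * Real.pi), R t θ) - 2 * Real.pi * R t ξ) / 2 := by
    rw [intervalIntegral.integral_sub, intervalIntegral.integral_sub,
      intervalIntegral.integral_const_mul, intervalIntegral.integral_div,
      intervalIntegral.integral_sub, intervalIntegral.integral_const]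
    · simp
    all_goals
      apply Continuous.intervalIntegrable
      fun_prop
  rw [hsplit] at hint
  have hmR : (0 : ℝ) < m := by exact_mod_cast hm
  have h1 : (m : ℝ) * (Real.pi * Sm t) < m * ∫ θ in (0 : ℝ)..(2 * Real.pi), R t θ :=
    mul_lt_mul_of_pos_left hI hmR
  have h2 : 0 ≤ Real.pi * Sm t := by positivity
  nlinarith

/-- The integral of a half-angle product is at most `π` times its maximum. -/
theorem integral_le (t : ι → ℝ) {m : ℕ} (hm : 0 < m) (hcard : Fintype.card ι = 2 * m) :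
    ∫ θ in (0 : ℝ)..(2 * Real.pi), R t θ ≤ Real.pi * Sm t := by
  obtain ⟨t₀, ht₀⟩ := exists_max_G (ι := ι)
  have h1 := no_pos_max t₀ hm hcard ht₀
  have h2 := ht₀ t
  unfold G at h2 h1
  linarith

end Pool.Agent.Lib.MP_c7fa02_an
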