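import Pool.Agent.Lib.MP_c7fa02_an.Middle

set_option autoImplicit false

namespace Pool.Agent.Lib.MP_c7fa02_an

open Polynomial Complex ComplexConjugate Metric

variable {ι : Type} [Fintype ι] [DecidableEq ι]

lemma exists_neg (t : ι → ℝ) (hcard : 0 < Fintype.card ι) :
    ∃ t' : ι → ℝ, ∀ θ, R t' θ = - R t θ := by
  obtain ⟨j⟩ := Fintype.card_pos_iff.mp hcard
  refine ⟨Function.update t j (t j + 2 * Real.pi), fun θ => ?_⟩
  rw [← R_eq_mul _ θ j, ← R_eq_mul t θ j, Function.update_self]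
  have h1 : (θ - (t j + 2 * Real.pi)) / 2 = (θ - t j) / 2 - Real.pi := by ring
  rw [h1, Real.sin_sub_pi]
  have h2 : (∏ i ∈ Finset.univ.erase j,
      Real.sin ((θ - Function.update t j (t j + 2 * Real.pi) i) / 2))
      = ∏ i ∈ Finset.univ.erase j, Real.sin ((θ - t i) / 2) := by
    refine Finset.prod_congr rfl fun i hi => ?_
    rw [Function.update_of_ne (Finset.ne_of_mem_erase hi)]
  rw [h2]
  ring

lemma abs_integral_le (t : ι → ℝ) {m : ℕ} (hm : 0 < m) (hcard : Fintype.card ι = 2 * m) {K : ℝ}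
    (hK : ∀ θ, |R t θ| ≤ K) : |∫ θ in (0 : ℝ)..(2 * Real.pi), R t θ| ≤ Real.pi * K := by
  have hpi := Real.pi_pos
  rw [abs_le]
  constructor
  · obtain ⟨t', ht'⟩ := exists_neg t (by omega)
    have h1 := integral_le t' hm hcard
    obtain ⟨θ, _, h2⟩ := exists_eq_Sm t'
    rw [← h2] at h1
    simp_rw [ht'] at h1
    rw [intervalIntegral.integral_neg] at h1
    have h3 := (neg_le_abs _).trans (hK θ)
    have h4 := mul_le_mul_of_nonneg_left h3 hpi.le
    linarith
  · have h1 := integral_le t hm hcard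
    obtain ⟨θ, _, h2⟩ := exists_eq_Sm t
    rw [← h2] at h1
    have h3 := (le_abs_self _).trans (hK θ)
    have h4 := mul_le_mul_of_nonneg_left h3 hpi.le
    linarith

/-- Middle coefficient bound for a polynomial with all zeros on the unit circle. -/
theorem middle_coeff {Q : ℂ[X]} {m : ℕ} (hm : 0 < m) (hdeg : Q.natDegree = 2 * m)
    (hroots : ∀ ζ ∈ Q.roots, ‖ζ‖ = 1) {M : ℝ} (hM : ∀ z : ℂ, ‖z‖ = 1 → ‖Q.eval z‖ ≤ M) :
    ‖Q.coeff m‖ ≤ M / 2 := by
  have hQ0 : Q ≠ 0 := by
    intro h; rw [h, natDegree_zero] at hdeg; omega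
  set l := Q.roots.toList with hl
  have hlen : l.length = 2 * m := by
    rw [hl, Multiset.length_toList, ← hdeg]
    exact (IsAlgClosed.splits Q).natDegree_eq_card_roots.symm
  set t : Fin l.length → ℝ := fun j => (l.get j).arg with ht
  have hcard : Fintype.card (Fin l.length) = 2 * m := by rw [Fintype.card_fin, hlen]
  have hexp : ∀ j : Fin l.length, cexp (t j * I) = l.get j := by
    intro j
    have h1 : ‖l.get j‖ = 1 := hroots _ (by
      rw [← Multiset.mem_toList]
      exact List.get_mem _ _)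
    have := Complex.norm_mul_exp_arg_mul_I (l.get j)
    rw [h1] at this
    simpa [ht] using this
  have hprod : ∏ j : Fin l.length, (X - C (cexp (t j * I))) = (Q.roots.map fun a => X - C a).prod := by
    simp_rw [hexp]
    rw [← Multiset.coe_toList Q.roots, Multiset.map_coe, Multiset.prod_coe, ← hl]
    rw [← List.prod_ofFn]
    congr 1
    conv_rhs => rw [← List.ofFn_get l]
    rw [List.map_ofFn]
    rfl
  have hQ : Q = C (Q.leadingCoeff / kap t) * tp t := by
    conv_lhs => rw [(IsAlgClosed.splits Q).eq_prod_roots]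
    rw [← hprod]
    unfold tp
    rw [← mul_assoc, ← C_mul, div_mul_cancel₀ _ (kap_ne t)]
  set c := Q.leadingCoeff / kap t with hc
  have hc0 : 0 < ‖c‖ := by
    rw [norm_pos_iff, hc]
    exact div_ne_zero (leadingCoeff_ne_zero.mpr hQ0) (kap_ne t)
  have hR : ∀ θ, |R t θ| ≤ M / ‖c‖ := by
    intro θ
    have h1 := hM (cexp (θ * I)) (Complex.norm_exp_ofReal_mul_I θ)
    rw [hQ, eval_mul, eval_C, tp_eval t hcard, norm_mul, norm_mul, norm_pow,
      Complex.norm_exp_ofReal_mul_I, one_pow, one_mul, Complex.norm_real, Real.norm_eq_abs] at h1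
    rw [le_div_iff₀ hc0]
    linarith
  have h2 := abs_integral_le t hm hcard hR
  rw [hQ, coeff_C_mul, tp_coeff t hcard, norm_mul, Complex.norm_real, Real.norm_eq_abs, abs_mul,
    abs_of_pos (show (0 : ℝ) < (2 * Real.pi)⁻¹ by have := Real.pi_pos; positivity)]
  have hpi := Real.pi_pos
  calc ‖c‖ * ((2 * Real.pi)⁻¹ * |∫ θ in (0 : ℝ)..(2 * Real.pi), R t θ|)
      ≤ ‖c‖ * ((2 * Real.pi)⁻¹ * (Real.pi * (M / ‖c‖))) := by gcongr
    _ = M / 2 := by field_simp

end Pool.Agent.Lib.MP_c7fa02_an
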