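import Pool.Agent.Lib.MP_c7fa02_an.CircleDeriv
import Pool.Agent.Lib.MP_c7fa02_an.Mean

set_option autoImplicit false

namespace Pool.Agent.Lib.MP_c7fa02_an

open Polynomial Complex ComplexConjugate Metric

/-- Maximum modulus principle for polynomials on the unit disc. -/
lemma norm_eval_le_of_sphere {P : ℂ[X]} {M : ℝ} (hM : ∀ z : ℂ, ‖z‖ = 1 → ‖P.eval z‖ ≤ M) {z : ℂ}
    (hz : ‖z‖ ≤ 1) : ‖P.eval z‖ ≤ M := by
  have hd : DiffContOnCl ℂ (fun z => P.eval z) (ball (0 : ℂ) 1) := P.differentiable.diffContOnCl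
  have hcl : z ∈ closure (ball (0 : ℂ) 1) := by
    rw [closure_ball _ one_ne_zero, mem_closedBall_zero_iff]; exact hz
  refine Complex.norm_le_of_forall_mem_frontier_norm_le isBounded_ball hd ?_ hcl
  intro w hw
  rw [frontier_ball _ one_ne_zero, mem_sphere_zero_iff_norm] at hw
  exact hM w hw

/-- Nonnegative case. `P` has degree `2m`, all zeros on the unit circle, and `conj z ^ m * P z ≥ 0`
on the circle, where `‖P‖ ≤ M`. Then the middle coefficient is at most `M/2` in modulus. -/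
theorem nonneg_case {P : ℂ[X]} {m : ℕ} (hm : 0 < m) (hdeg : P.natDegree = 2 * m)
    (hroots : ∀ ζ ∈ P.roots, ‖ζ‖ = 1)
    (hpos : ∀ z : ℂ, ‖z‖ = 1 → conj z ^ m * P.eval z = (‖P.eval z‖ : ℂ)) {M : ℝ}
    (hM : ∀ z : ℂ, ‖z‖ = 1 → ‖P.eval z‖ ≤ M) : ‖P.coeff m‖ ≤ M / 2 := by
  have hP0 : P ≠ 0 := by
    intro h; rw [h, natDegree_zero] at hdeg; omega
  have hM0 : 0 ≤ M := (norm_nonneg _).trans (hM 1 (by simp))
  have hmR : (0 : ℝ) < m := by exact_mod_cast hm
  have himP : ∀ z : ℂ, ‖z‖ = 1 → (conj z ^ m * P.eval z).im = 0 := by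
    intro z hz; rw [hpos z hz]; exact Complex.ofReal_im _
  have hczz : ∀ z : ℂ, ‖z‖ = 1 → conj z ^ m * z ^ m = 1 := by
    intro z hz
    rw [← mul_pow, mul_comm, Complex.mul_conj, Complex.normSq_eq_norm_sq, hz]; simp
  have hczn : ∀ z : ℂ, ‖z‖ = 1 → ‖conj z ^ m‖ = 1 := by
    intro z hz; rw [norm_pow, RCLike.norm_conj, hz, one_pow]
  -- the shifted polynomial
  set P1 : ℂ[X] := P - C ((M / 2 : ℝ) : ℂ) * X ^ m with hP1
  have hP1eval : ∀ z : ℂ, ‖z‖ = 1 →
      conj z ^ m * P1.eval z = ((‖P.eval z‖ - M / 2 : ℝ) : ℂ) := by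
    intro z hz
    rw [hP1, eval_sub, eval_mul, eval_C, eval_pow, eval_X, mul_sub, hpos z hz]
    have := hczz z hz
    push_cast
    linear_combination (-(M / 2 : ℂ)) * this
  have hP1norm : ∀ z : ℂ, ‖z‖ = 1 → ‖P1.eval z‖ ≤ M / 2 := by
    intro z hz
    have h1 : ‖P1.eval z‖ = ‖conj z ^ m * P1.eval z‖ := by
      rw [norm_mul (conj z ^ m), hczn z hz, one_mul]
    rw [h1, hP1eval z hz, Complex.norm_real, Real.norm_eq_abs, abs_le]
    have := hM z hz
    have := norm_nonneg (P.eval z)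
    constructor <;> linarith
  have hP1im : ∀ z : ℂ, ‖z‖ = 1 → (conj z ^ m * P1.eval z).im = 0 := by
    intro z hz; rw [hP1eval z hz]; exact Complex.ofReal_im _
  have hP1deg : P1.natDegree ≤ 2 * m := by
    rw [hP1]
    refine (natDegree_sub_le _ _).trans ?_
    rw [hdeg]
    refine max_le le_rfl ?_
    exact (natDegree_C_mul_X_pow_le _ _).trans (by omega)
  -- the polynomial `2 m P - X P'`
  set Fn : ℂ[X] := C (2 * m : ℂ) * P - X * P.derivative with hFn
  have hFneval : ∀ z : ℂ, Fn.eval z = (2 * m : ℂ) * P.eval z - z * P.derivative.eval z := by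
    intro z; rw [hFn]; simp
  have hder1 : ∀ z : ℂ, (2 * m : ℂ) * P1.eval z - z * P1.derivative.eval z
      = Fn.eval z - ((m * M / 2 : ℝ) : ℂ) * z ^ m := by
    intro z
    rw [hFneval, hP1]
    obtain ⟨k, rfl⟩ : ∃ k, m = k + 1 := ⟨m - 1, by omega⟩
    simp only [derivative_sub, derivative_mul, derivative_C, zero_mul, zero_add, derivative_X_pow,
      eval_sub, eval_mul, eval_C, eval_pow, eval_X, Nat.add_sub_cancel]
    push_cast
    ring
  -- key bound on the circle
  have hkey : ∀ z : ℂ, ‖z‖ = 1 → ‖Fn.eval z‖ ^ 2 ≤ m ^ 2 * M * ‖P.eval z‖ := by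
    intro z hz
    have hb := bernstein (P := P1) (n := 2 * m) (by omega) hP1deg
      (fun w hw => norm_eval_le_of_sphere hP1norm hw) (z := z) hz.le
    have hs := (self_inv_props hP1im hz).1
    have e : ((2 * m : ℕ) : ℂ) = 2 * (m : ℂ) := by push_cast; ring
    rw [e, hs] at hb
    rw [hder1 z] at hb
    have e2 : ((2 * m : ℕ) : ℝ) = 2 * (m : ℝ) := by push_cast; ring
    rw [e2] at hb
    have hb2 : ‖Fn.eval z - ((m * M / 2 : ℝ) : ℂ) * z ^ m‖ ≤ m * M / 2 := by
      nlinarith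
    -- multiply by conj z ^ m
    set Y : ℂ := conj z ^ m * Fn.eval z with hY
    have hYre : Y.re = m * ‖P.eval z‖ := by
      have := (self_inv_props himP hz).2
      rw [← hFneval, ← hY, hpos z hz, Complex.ofReal_re] at this
      exact this
    have hYn : ‖Fn.eval z‖ = ‖Y‖ := by rw [hY, norm_mul (conj z ^ m), hczn z hz, one_mul]
    have hYb : ‖Y - ((m * M / 2 : ℝ) : ℂ)‖ ≤ m * M / 2 := by
      have : Y - ((m * M / 2 : ℝ) : ℂ)
          = conj z ^ m * (Fn.eval z - ((m * M / 2 : ℝ) : ℂ) * z ^ m) := by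
        have := hczz z hz
        rw [hY]
        linear_combination (((m * M / 2 : ℝ) : ℂ)) * this
      rw [this, norm_mul (conj z ^ m), hczn z hz, one_mul]
      exact hb2
    have hsq : ‖Y - ((m * M / 2 : ℝ) : ℂ)‖ ^ 2 ≤ (m * M / 2) ^ 2 := by
      have := norm_nonneg (Y - ((m * M / 2 : ℝ) : ℂ))
      nlinarith
    have hexp : ‖Y - ((m * M / 2 : ℝ) : ℂ)‖ ^ 2
        = ‖Y‖ ^ 2 - (m * M) * Y.re + (m * M / 2) ^ 2 := by
      simp only [← Complex.normSq_eq_norm_sq, Complex.normSq_apply, Complex.sub_re,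
        Complex.sub_im, Complex.ofReal_re, Complex.ofReal_im]
      ring
    rw [hexp, hYre] at hsq
    rw [hYn]
    nlinarith
  -- divisibility
  have hdvd : P ∣ Fn ^ 2 := by
    refine (IsAlgClosed.splits P).dvd_of_roots_le_roots hP0 ?_
    rw [Multiset.le_iff_count]
    intro ζ
    rw [count_roots, count_roots]
    by_cases hζ : P.IsRoot ζ
    · by_cases hF0 : Fn ^ 2 = 0
      · exfalso
        have hFz : Fn = 0 := by
          rcases pow_eq_zero_iff (n := 2) (by norm_num) |>.mp hF0 with h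
          exact h
        -- then 2 m P = X P', compare leading coefficients: 2m * lc = 2m * lc, no contradiction;
        -- use the constant coefficient instead
        have h0 : Fn.eval 0 = 0 := by rw [hFz, eval_zero]
        rw [hFneval, zero_mul, sub_zero] at h0
        have h1 : P.eval 0 ≠ 0 := by
          intro h
          have := hroots 0 ((mem_roots hP0).mpr h)
          simp at this
        have h2 : (2 * m : ℂ) ≠ 0 := by
          have : (m : ℂ) ≠ 0 := by exact_mod_cast hm.ne'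
          simp [this]
        exact h1 ((mul_eq_zero.mp h0).resolve_left h2)
      · rw [le_rootMultiplicity_iff hF0]
        set k := P.rootMultiplicity ζ with hk
        have hz1 : ‖ζ‖ = 1 := hroots ζ ((mem_roots hP0).mpr hζ)
        have hd0 : P.derivative.IsRoot ζ := derivative_eval_eq_zero hpos hz1 hζ
        have hk2 : 1 < k := (one_lt_rootMultiplicity_iff_isRoot hP0).mpr ⟨hζ, hd0⟩ 
        have hpk : (X - C ζ) ^ k ∣ P := pow_rootMultiplicity_dvd P ζ
        have h1 : (X - C ζ) ^ (k - 1) ∣ P := (pow_dvd_pow _ (Nat.sub_le _ _)).trans hpk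
        have h2 : (X - C ζ) ^ (k - 1) ∣ P.derivative := pow_sub_one_dvd_derivative_of_pow_dvd hpk
        have h3 : (X - C ζ) ^ (k - 1) ∣ Fn := by
          rw [hFn]
          exact dvd_sub (h1.mul_left _) (h2.mul_left _)
        have h4 : ((X - C ζ) ^ (k - 1)) ^ 2 ∣ Fn ^ 2 := pow_dvd_pow_of_dvd h3 2
        rw [← pow_mul] at h4
        exact (pow_dvd_pow _ (by omega)).trans h4
    · rw [rootMultiplicity_eq_zero hζ]
      exact Nat.zero_le _
  obtain ⟨G, hG⟩ := hdvd
  have hGnorm : ∀ z : ℂ, ‖P.eval z‖ * ‖G.eval z‖ = ‖Fn.eval z‖ ^ 2 := by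
    intro z
    rw [← norm_mul, ← eval_mul, ← hG, eval_pow, norm_pow]
  have hGsph : ∀ z : ℂ, ‖z‖ = 1 → ‖G.eval z‖ ≤ m ^ 2 * M := by
    intro z hz
    refine le_on_circle_of_le_off_roots hP0 (h := fun z => ‖G.eval z‖) G.continuous.norm ?_ hz
    intro w hw hPw
    have hpos' : 0 < ‖P.eval w‖ := norm_pos_iff.mpr hPw
    have h1 := hkey w hw
    rw [← hGnorm w] at h1
    have h2 : ‖P.eval w‖ * ‖G.eval w‖ ≤ ‖P.eval w‖ * (m ^ 2 * M) := by linarith
    exact le_of_mul_le_mul_left h2 hpos'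
  have hGdisc : ∀ z : ℂ, ‖z‖ ≤ 1 → ‖G.eval z‖ ≤ m ^ 2 * M :=
    fun z hz => norm_eval_le_of_sphere hGsph hz
  -- zero free in the open disc
  have hPne : ∀ z : ℂ, ‖z‖ < 1 → P.eval z ≠ 0 := by
    intro z hz h
    have := hroots z ((mem_roots hP0).mpr h)
    linarith
  have hlag : ∀ z : ℂ, ‖z‖ < 1 → ‖z * P.derivative.eval z‖ ≤ ‖Fn.eval z‖ := by
    intro z hz
    have := laguerre (P := P) (n := 2 * m) hdeg.le hPne hz.le
    rw [hFneval]
    convert this using 3
    push_cast; ring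
  have hFne : ∀ z : ℂ, ‖z‖ < 1 → Fn.eval z ≠ 0 := by
    intro z hz h
    have h1 := hlag z hz
    rw [h, norm_zero] at h1
    have h2 : z * P.derivative.eval z = 0 := norm_le_zero_iff.mp h1
    rw [hFneval, h2, sub_zero] at h
    have h3 : (2 * m : ℂ) ≠ 0 := by
      have : (m : ℂ) ≠ 0 := by exact_mod_cast hm.ne'
      simp [this]
    exact hPne z hz ((mul_eq_zero.mp h).resolve_left h3)
  set B : ℂ → ℂ := fun z => z * P.derivative.eval z / Fn.eval z with hBdef
  have hBdiff : DifferentiableOn ℂ B (ball 0 1) := by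
    intro z hz
    rw [mem_ball_zero_iff] at hz
    have h1 : DifferentiableAt ℂ (fun z => z * P.derivative.eval z) z :=
      differentiableAt_id.mul P.derivative.differentiableAt
    have h2 : DifferentiableAt ℂ (fun z => Fn.eval z) z := Fn.differentiableAt
    exact (h1.div h2 (hFne z hz)).differentiableWithinAt
  have hB0 : B 0 = 0 := by simp [hBdef]
  refine norm_coeff_le_of_le_one_add_re hBdiff hB0 ?_ m
  intro z hz
  have hpz : 0 < ‖P.eval z‖ := norm_pos_iff.mpr (hPne z hz)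
  have hBn : ‖B z‖ ≤ 1 := by
    rw [hBdef]
    simp only []
    rw [norm_div]
    exact div_le_one_of_le₀ (hlag z hz) (norm_nonneg _)
  have hfac : (2 * m : ℂ) * P.eval z = Fn.eval z * (1 + B z) := by
    have h := hFne z hz
    have : Fn.eval z * B z = z * P.derivative.eval z := by
      rw [hBdef]; field_simp
    rw [mul_add, this, mul_one, hFneval]
    ring
  have hnorm : (2 * m) * ‖P.eval z‖ = ‖Fn.eval z‖ * ‖1 + B z‖ := by
    have h := congrArg norm hfac
    have e : ‖(2 * m : ℂ)‖ = 2 * m := by simp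
    rw [norm_mul (2 * m : ℂ) (P.eval z), norm_mul (Fn.eval z), e] at h
    exact h
  have h1B : ‖1 + B z‖ ^ 2 ≤ 2 * (1 + (B z).re) := by
    have e : ‖1 + B z‖ ^ 2 = 1 + 2 * (B z).re + ‖B z‖ ^ 2 := by
      simp only [← Complex.normSq_eq_norm_sq, Complex.normSq_apply, Complex.add_re,
        Complex.add_im, Complex.one_re, Complex.one_im]
      ring
    rw [e]
    nlinarith [norm_nonneg (B z)]
  have hFsq : ‖Fn.eval z‖ ^ 2 ≤ (m ^ 2 * M) * ‖P.eval z‖ := by
    rw [← hGnorm z]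
    have := hGdisc z hz.le
    nlinarith
  have hsq : (2 * m) ^ 2 * ‖P.eval z‖ ^ 2 ≤ (m ^ 2 * M) * ‖P.eval z‖ * (2 * (1 + (B z).re)) := by
    have e : ((2 : ℝ) * m) ^ 2 * ‖P.eval z‖ ^ 2 = ‖Fn.eval z‖ ^ 2 * ‖1 + B z‖ ^ 2 := by
      rw [← mul_pow, hnorm, mul_pow]
    rw [e]
    exact mul_le_mul hFsq h1B (by positivity) (by positivity)
  have hmm : (0 : ℝ) < m ^ 2 * ‖P.eval z‖ := by positivity
  have h4 : m ^ 2 * ‖P.eval z‖ * (4 * ‖P.eval z‖) ≤ m ^ 2 * ‖P.eval z‖ * (2 * M * (1 + (B z).re)) := by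
    nlinarith
  have h5 := le_of_mul_le_mul_left h4 hmm
  linarith

end Pool.Agent.Lib.MP_c7fa02_an
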