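import Pool.Agent.Lib.MP_c7fa02_an.SchurCohn

set_option autoImplicit false

namespace Pool.Agent.Lib.MP_c7fa02_an

open Polynomial Complex ComplexConjugate Metric

lemma count_map_of_involutive (f : ℂ → ℂ) (hf : ∀ a, f (f a) = a) (s : Multiset ℂ)
    (h : ∀ ζ ∈ s, s.count (f ζ) = s.count ζ) : s.map f = s := by
  classical
  have hinj : Function.Injective f := fun a b hab => by
    rw [← hf a, ← hf b, hab]
  ext ξ
  rw [← hf ξ, Multiset.count_map_eq_count' f s hinj, hf]
  by_cases h1 : ξ ∈ s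
  · rw [h ξ h1]
  · by_cases h2 : f ξ ∈ s
    · rw [← h (f ξ) h2, hf]
    · rw [Multiset.count_eq_zero_of_notMem h1, Multiset.count_eq_zero_of_notMem h2]

/-- Symmetry of the moduli of the coefficients, for a root set invariant under `ζ ↦ 1/σ(ζ)`
with multiplicities, `σ` an involutive norm preserving ring homomorphism. -/
theorem coeff_sym (σ : ℂ →+* ℂ) (hσσ : ∀ a, σ (σ a) = a) (hσn : ∀ a, ‖σ a‖ = ‖a‖) {P : ℂ[X]}
    (hP : P ≠ 0)
    (h : ∀ ζ : ℂ, P.IsRoot ζ → ζ ≠ 0 ∧ P.rootMultiplicity (σ ζ)⁻¹ = P.rootMultiplicity ζ) :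
    ∀ k, k ≤ P.natDegree → ‖P.coeff k‖ = ‖P.coeff (P.natDegree - k)‖ := by
  have hmap : P.roots.map (fun ζ => (σ ζ)⁻¹) = P.roots := by
    apply count_map_of_involutive
    · intro a; rw [map_inv₀, hσσ, inv_inv]
    · intro ζ hζ
      rw [count_roots, count_roots]
      exact (h ζ ((mem_roots hP).mp hζ)).2
  have hprod : ∃ v : ℂ, P.reverse.map σ = C v * P := by
    refine ⟨σ P.leadingCoeff * (P.roots.map fun ζ => - σ ζ).prod / P.leadingCoeff, ?_⟩
    have h1 : P.reverse.map σ
        = C (σ P.leadingCoeff) * (P.roots.map fun ζ => (1 - C (σ ζ) * X)).prod := by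
      conv_lhs => rw [(IsAlgClosed.splits P).eq_prod_roots]
      rw [reverse_mul_of_domain, reverse_C, reverse_multiset_prod, Polynomial.map_mul,
        map_C, Multiset.map_map, Polynomial.map_multiset_prod, Multiset.map_map]
      congr 2
      refine Multiset.map_congr rfl fun ζ _ => ?_
      simp [reverse_X_sub_C]
    have h2 : (P.roots.map fun ζ => (1 - C (σ ζ) * X)).prod
        = C (P.roots.map fun ζ => - σ ζ).prod * (P.roots.map fun ζ => (X - C ζ)).prod := by
      have e1 : (P.roots.map fun ζ => (1 - C (σ ζ) * X))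
          = P.roots.map fun ζ => C (- σ ζ) * (X - C (σ ζ)⁻¹) := by
        refine Multiset.map_congr rfl fun ζ hζ => ?_
        have h0 : σ ζ ≠ 0 := by
          have h3 := (h ζ ((mem_roots hP).mp hζ)).1
          exact (map_ne_zero σ).mpr h3
        have h4 : (C (σ ζ) : ℂ[X]) * C (σ ζ)⁻¹ = 1 := by
          rw [← C_mul, mul_inv_cancel₀ h0, C_1]
        rw [C_neg]
        linear_combination (-1 : ℂ[X]) * h4
      rw [e1, Multiset.prod_map_mul]
      congr 1
      · rw [← Multiset.prod_hom (P.roots.map fun ζ => - σ ζ) (C : ℂ →+* ℂ[X]), Multiset.map_map]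
        rfl
      · conv_rhs => rw [← hmap]
        rw [Multiset.map_map]
        rfl
    have hlc : P.leadingCoeff ≠ 0 := leadingCoeff_ne_zero.mpr hP
    have hB : C P.leadingCoeff * (P.roots.map fun ζ => (X - C ζ)).prod = P :=
      (IsAlgClosed.splits P).eq_prod_roots.symm
    rw [h1, h2]
    calc C (σ P.leadingCoeff) * (C (P.roots.map fun ζ => - σ ζ).prod *
          (P.roots.map fun ζ => (X - C ζ)).prod)
        = C (σ P.leadingCoeff * (P.roots.map fun ζ => - σ ζ).prod / P.leadingCoeff) *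
          (C P.leadingCoeff * (P.roots.map fun ζ => (X - C ζ)).prod) := by
          rw [← mul_assoc, ← mul_assoc, ← C_mul, ← C_mul, div_mul_cancel₀ _ hlc]
      _ = C (σ P.leadingCoeff * (P.roots.map fun ζ => - σ ζ).prod / P.leadingCoeff) * P := by
          rw [hB]
  obtain ⟨v, hv⟩ := hprod
  have hcoef : ∀ k, k ≤ P.natDegree → σ (P.coeff (P.natDegree - k)) = v * P.coeff k := by
    intro k hk
    have h1 := congrArg (fun q => coeff q k) hv
    simp only [coeff_map, coeff_C_mul] at h1
    rw [coeff_reverse, revAt_le hk] at h1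
    exact h1
  have hn0 : P.coeff P.natDegree ≠ 0 := by
    rw [coeff_natDegree]; exact leadingCoeff_ne_zero.mpr hP
  have h1 := congrArg norm (hcoef 0 (Nat.zero_le _))
  have h2 := congrArg norm (hcoef P.natDegree le_rfl)
  rw [hσn, norm_mul, Nat.sub_zero] at h1
  rw [hσn, norm_mul, Nat.sub_self] at h2
  have hpos : 0 < ‖P.coeff P.natDegree‖ := norm_pos_iff.mpr hn0
  have hv1 : ‖v‖ = 1 := by
    rw [h2, ← mul_assoc] at h1
    have h3 : ‖v‖ * ‖v‖ = 1 := by
      have : (‖v‖ * ‖v‖ - 1) * ‖P.coeff P.natDegree‖ = 0 := by linarith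
      rcases mul_eq_zero.mp this with h | h
      · linarith
      · exact absurd h hpos.ne'
    nlinarith [norm_nonneg v]
  intro k hk
  have h3 := congrArg norm (hcoef k hk)
  rw [hσn, norm_mul, hv1, one_mul] at h3
  exact h3.symm

end Pool.Agent.Lib.MP_c7fa02_an
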