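import Pool.Agent.Lib.MP_c7fa02_an.NonnegCase
import Pool.Agent.Lib.MP_c7fa02_an.Flow

set_option autoImplicit false

namespace Pool.Agent.Lib.MP_c7fa02_an

open Polynomial Complex ComplexConjugate Metric

variable {ι : Type} [Fintype ι]

lemma exp_sub_exp (θ t : ℝ) : cexp (θ * I) - cexp (t * I)
    = (2 * I) * (Real.sin ((θ - t) / 2) : ℂ) * cexp ((θ + t) / 2 * I) := by
  have e1 : (Real.sin ((θ - t) / 2) : ℂ) = Complex.sin (((θ : ℂ) - t) / 2) := by
    push_cast; rfl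
  rw [e1, Complex.sin]
  have h1 : cexp (θ * I) = cexp (((θ : ℂ) - t) / 2 * I) * cexp ((θ + t) / 2 * I) := by
    rw [← Complex.exp_add]; congr 1; ring
  have h2 : cexp (t * I) = cexp (-(((θ : ℂ) - t) / 2) * I) * cexp ((θ + t) / 2 * I) := by
    rw [← Complex.exp_add]; congr 1; ring
  rw [h1, h2]
  have hI : I ^ 2 = -1 := Complex.I_sq
  linear_combination (cexp (-(((θ : ℂ) - t) / 2) * I) - cexp (((θ : ℂ) - t) / 2 * I)) *
    cexp ((θ + t) / 2 * I) * (-1) * hI

noncomputable def kap (t : ι → ℝ) : ℂ :=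
  ((2 * I) ^ Fintype.card ι * cexp (((∑ j, t j : ℝ) : ℂ) / 2 * I))⁻¹

lemma kap_ne (t : ι → ℝ) : kap t ≠ 0 := by
  unfold kap
  apply inv_ne_zero
  refine mul_ne_zero (pow_ne_zero _ (mul_ne_zero two_ne_zero Complex.I_ne_zero)) (Complex.exp_ne_zero _)

/-- The polynomial attached to the half-angle product. -/
noncomputable def tp (t : ι → ℝ) : ℂ[X] := C (kap t) * ∏ j, (X - C (cexp (t j * I)))

lemma tp_eval (t : ι → ℝ) {m : ℕ} (hcard : Fintype.card ι = 2 * m) (θ : ℝ) :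
    (tp t).eval (cexp (θ * I)) = cexp (θ * I) ^ m * (R t θ : ℂ) := by
  unfold tp kap R
  rw [eval_mul, eval_C, eval_prod]
  simp only [eval_sub, eval_X, eval_C, exp_sub_exp]
  rw [Finset.prod_mul_distrib, Finset.prod_mul_distrib, Finset.prod_const, Finset.card_univ,
    ← Complex.exp_sum, Complex.ofReal_prod]
  have e : ∑ j, ((θ : ℂ) + t j) / 2 * I = m * (θ * I) + ((∑ j, t j : ℝ) : ℂ) / 2 * I := by
    rw [← Finset.sum_mul, ← Finset.sum_div, Finset.sum_add_distrib, Finset.sum_const,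
      Finset.card_univ, hcard, nsmul_eq_mul]
    push_cast
    ring
  rw [e, Complex.exp_add, Complex.exp_nat_mul]
  have h1 : (2 * I) ^ Fintype.card ι ≠ 0 := pow_ne_zero _ (mul_ne_zero two_ne_zero Complex.I_ne_zero)
  have h2 : cexp (((∑ j, t j : ℝ) : ℂ) / 2 * I) ≠ 0 := Complex.exp_ne_zero _
  field_simp

lemma tp_natDegree (t : ι → ℝ) : (tp t).natDegree = Fintype.card ι := by
  unfold tp
  rw [natDegree_C_mul (kap_ne t), natDegree_prod_of_monic _ _ fun j _ => monic_X_sub_C _]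
  simp

lemma tp_roots (t : ι → ℝ) : ∀ ζ ∈ (tp t).roots, ‖ζ‖ = 1 := by
  intro ζ hζ
  have h := (mem_roots'.mp hζ).2
  unfold tp at h
  rw [IsRoot, eval_mul, eval_C, eval_prod] at h
  have h1 := (mul_eq_zero.mp h).resolve_left (kap_ne t)
  obtain ⟨j, _, hj⟩ := Finset.prod_eq_zero_iff.mp h1
  simp only [eval_sub, eval_X, eval_C] at hj
  rw [sub_eq_zero.mp hj, Complex.norm_exp_ofReal_mul_I]

lemma conj_pow_mul_tp (t : ι → ℝ) {m : ℕ} (hcard : Fintype.card ι = 2 * m) (θ : ℝ) :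
    conj (cexp (θ * I)) ^ m * (tp t).eval (cexp (θ * I)) = (R t θ : ℂ) := by
  rw [tp_eval t hcard, ← mul_assoc, ← mul_pow]
  have : conj (cexp (θ * I)) * cexp (θ * I) = 1 := by
    rw [mul_comm, Complex.mul_conj, Complex.normSq_eq_norm_sq, Complex.norm_exp_ofReal_mul_I]; simp
  rw [this, one_pow, one_mul]

lemma tp_coeff (t : ι → ℝ) {m : ℕ} (hcard : Fintype.card ι = 2 * m) :
    (tp t).coeff m = (((2 * Real.pi)⁻¹ * ∫ θ in (0 : ℝ)..(2 * Real.pi), R t θ : ℝ) : ℂ) := by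
  have h := circleAverage_conj_pow_mul_eval (tp t) m 1
  rw [Complex.ofReal_one, one_pow, mul_one] at h
  rw [← h, Real.circleAverage]
  have e : ∀ θ : ℝ, conj (circleMap 0 1 θ) ^ m * (tp t).eval (circleMap 0 1 θ) = (R t θ : ℂ) := by
    intro θ
    have : circleMap 0 1 θ = cexp (θ * I) := by simp [circleMap]
    rw [this]
    exact conj_pow_mul_tp t hcard θ
  simp_rw [e]
  rw [intervalIntegral.integral_ofReal]
  rw [Complex.real_smul]
  push_cast
  ring

/-- Nonnegative case of the integral inequality. -/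
lemma nonneg_integral (t : ι → ℝ) {m : ℕ} (hm : 0 < m) (hcard : Fintype.card ι = 2 * m) {M : ℝ}
    (h0 : ∀ θ, 0 ≤ R t θ) (hM : ∀ θ, R t θ ≤ M) :
    ∫ θ in (0 : ℝ)..(2 * Real.pi), R t θ ≤ Real.pi * M := by
  have hnorm : ∀ θ : ℝ, ‖(tp t).eval (cexp (θ * I))‖ = R t θ := by
    intro θ
    rw [tp_eval t hcard, norm_mul, norm_pow, Complex.norm_exp_ofReal_mul_I, one_pow, one_mul,
      Complex.norm_real, Real.norm_eq_abs, abs_of_nonneg (h0 θ)]
  have h := nonneg_case (P := tp t) (m := m) hm (by rw [tp_natDegree, hcard]) (tp_roots t)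
    (by
      intro z hz
      obtain ⟨θ, rfl⟩ := exists_angle hz
      rw [conj_pow_mul_tp t hcard, hnorm])
    (M := M)
    (by
      intro z hz
      obtain ⟨θ, rfl⟩ := exists_angle hz
      rw [hnorm]
      exact hM θ)
  rw [tp_coeff t hcard, Complex.norm_real, Real.norm_eq_abs] at h
  have h2 := (le_abs_self _).trans h
  have hpi := Real.pi_pos
  rw [inv_mul_le_iff₀ (by positivity)] at h2
  linarith

end Pool.Agent.Lib.MP_c7fa02_an
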